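import Pool.Agent.Helper28.Haar

/-!
# Averages over the orthogonal group
-/

set_option autoImplicit false
set_option linter.unusedSectionVars false

open MeasureTheory Set Filter Topology
open Pool.Agent.Helper28
open scoped ContDiff

namespace Pool.Agent.U588.WH

attribute [local instance] compactSpace_UG secondCountable_UG measUG borelUG

section Gen

variable {E : Type*} [NormedAddCommGroup E] [InnerProductSpace ℝ E] [CompleteSpace E]
  [FiniteDimensional ℝ E] [MeasurableSpace E] [BorelSpace E]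

/-- the normalised Haar measure -/
noncomputable def nu (E : Type*) [NormedAddCommGroup E] [InnerProductSpace ℝ E] [CompleteSpace E]
    [FiniteDimensional ℝ E] : Measure (unitary (E →L[ℝ] E)) :=
  ((Measure.haar : Measure (unitary (E →L[ℝ] E))) univ)⁻¹ •
    (Measure.haar : Measure (unitary (E →L[ℝ] E)))

instance nu_prob : IsProbabilityMeasure (nu E) := by
  refine ⟨?_⟩
  have h0 : (Measure.haar : Measure (unitary (E →L[ℝ] E))) univ ≠ 0 :=
    (isOpen_univ.measure_pos _ univ_nonempty).ne'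
  have h1 : (Measure.haar : Measure (unitary (E →L[ℝ] E))) univ ≠ ⊤ := measure_ne_top _ _
  show ((Measure.haar : Measure (unitary (E →L[ℝ] E))) univ)⁻¹ *
    (Measure.haar : Measure (unitary (E →L[ℝ] E))) univ = 1
  exact ENNReal.inv_mul_cancel h0 h1

theorem nu_shift (g : unitary (E →L[ℝ] E)) (f : unitary (E →L[ℝ] E) → ℝ) :
    ∫ Q, f (g⁻¹ * Q) ∂(nu E) = ∫ Q, f Q ∂(nu E) := by
  unfold nu
  rw [integral_smul_measure, integral_smul_measure, haar_shift]

/-- the action as a linear map -/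
noncomputable def actL (Q : unitary (E →L[ℝ] E)) : E →L[ℝ] E :=
  ((Q⁻¹ : unitary (E →L[ℝ] E)) : E →L[ℝ] E)

theorem actL_apply (Q : unitary (E →L[ℝ] E)) (x : E) : actL Q x = act Q x := rfl

theorem actL_continuous : Continuous (actL : unitary (E →L[ℝ] E) → E →L[ℝ] E) :=
  continuous_subtype_val.comp continuous_inv

theorem integral_act (Q : unitary (E →L[ℝ] E)) (f : E → ℝ) : ∫ x, f (act Q x) = ∫ x, f x := by
  have h := (Unitary.linearIsometryEquiv (𝕜 := ℝ) (Q⁻¹ : unitary (E →L[ℝ] E))).measurePreserving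
  exact h.integral_comp
    (Unitary.linearIsometryEquiv (𝕜 := ℝ)
      (Q⁻¹ : unitary (E →L[ℝ] E))).toHomeomorph.measurableEmbedding f

/-- the rotated function -/
noncomputable def rot (u : E → ℝ) (Q : unitary (E →L[ℝ] E)) (x : E) : ℝ := u (act Q x)

/-- the average -/
noncomputable def avg (u : E → ℝ) (x : E) : ℝ := ∫ Q, u (act Q x) ∂(nu E)

theorem fderiv_rot {u : E → ℝ} (hu : ContDiff ℝ 1 u) (Q : unitary (E →L[ℝ] E)) (x : E) :
    HasFDerivAt (rot u Q) ((fderiv ℝ u (act Q x)).comp (actL Q)) x := by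
  have h1 : HasFDerivAt u (fderiv ℝ u (actL Q x)) (actL Q x) :=
    (hu.differentiable one_ne_zero _).hasFDerivAt
  exact h1.comp x (actL Q).hasFDerivAt

theorem norm_comp_actL (L : E →L[ℝ] ℝ) (Q : unitary (E →L[ℝ] E)) : ‖L.comp (actL Q)‖ = ‖L‖ := by
  apply le_antisymm
  · refine ContinuousLinearMap.opNorm_le_bound _ (norm_nonneg _) fun x => ?_
    have h := L.le_opNorm (act Q x)
    rw [act_norm] at h
    exact h
  · refine ContinuousLinearMap.opNorm_le_bound _ (norm_nonneg _) fun x => ?_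
    have h1 : actL Q ((Q : E →L[ℝ] E) x) = x := by
      show ((Q⁻¹ : unitary (E →L[ℝ] E)) : E →L[ℝ] E) ((Q : E →L[ℝ] E) x) = x
      have h2 : ((Q⁻¹ * Q : unitary (E →L[ℝ] E)) : E →L[ℝ] E) x = x := by
        rw [inv_mul_cancel]
        rfl
      exact h2
    have h2 : ‖(Q : E →L[ℝ] E) x‖ = ‖x‖ := Unitary.norm_map _ _
    have h3 := (L.comp (actL Q)).le_opNorm ((Q : E →L[ℝ] E) x)
    rw [h2] at h3
    have h4 : (L.comp (actL Q)) ((Q : E →L[ℝ] E) x) = L x := by
      show L (actL Q ((Q : E →L[ℝ] E) x)) = L x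
      rw [h1]
    rw [h4] at h3
    exact h3

theorem cont_act2 : Continuous (fun p : E × unitary (E →L[ℝ] E) => act p.2 p.1) := by
  have e1 : Continuous (fun p : E × unitary (E →L[ℝ] E) => (p.2, p.1)) :=
    continuous_snd.prodMk continuous_fst
  have e2 := act_continuous.comp e1
  exact e2

theorem cont_rot {u : E → ℝ} (hu : Continuous u) :
    Continuous (fun p : E × unitary (E →L[ℝ] E) => u (act p.2 p.1)) := by
  have e := cont_act2 (E := E)
  exact hu.comp e

theorem cont_drot {u : E → ℝ} (hu : ContDiff ℝ 1 u) :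
    Continuous (fun p : E × unitary (E →L[ℝ] E) =>
      (fderiv ℝ u (act p.2 p.1)).comp (actL p.2)) := by
  have e := cont_act2 (E := E)
  have h0 : Continuous (fderiv ℝ u) := hu.continuous_fderiv one_ne_zero
  have h1 : Continuous (fun p : E × unitary (E →L[ℝ] E) => fderiv ℝ u (act p.2 p.1)) :=
    h0.comp e
  have h2 : Continuous (fun p : E × unitary (E →L[ℝ] E) => actL p.2) :=
    actL_continuous.comp continuous_snd
  exact h1.clm_comp h2

theorem cont_rot1 {u : E → ℝ} (hu : Continuous u) (x : E) :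
    Continuous (fun Q : unitary (E →L[ℝ] E) => u (act Q x)) := by
  have h := cont_rot hu
  have h2 : Continuous fun Q : unitary (E →L[ℝ] E) => (x, Q) := continuous_const.prodMk continuous_id
  have h3 := h.comp h2
  exact h3

theorem cont_drot1 {u : E → ℝ} (hu : ContDiff ℝ 1 u) (x : E) :
    Continuous (fun Q : unitary (E →L[ℝ] E) => (fderiv ℝ u (act Q x)).comp (actL Q)) := by
  have h := cont_drot hu
  have h2 : Continuous fun Q : unitary (E →L[ℝ] E) => (x, Q) := continuous_const.prodMk continuous_id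
  have h3 := h.comp h2
  exact h3

theorem int_nu {F : Type*} [NormedAddCommGroup F] {f : unitary (E →L[ℝ] E) → F}
    (hf : Continuous f) : Integrable f (nu E) :=
  hf.integrable_of_hasCompactSupport (HasCompactSupport.of_compactSpace _)

theorem cont_param' {F : Type*} [NormedAddCommGroup F] [NormedSpace ℝ F]
    (f : E → unitary (E →L[ℝ] E) → F) (hf : Continuous (Function.uncurry f)) :
    Continuous (fun x => ∫ y, f x y ∂(nu E)) := by
  have : ProperSpace E := FiniteDimensional.proper_real _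
  have h := continuous_parametric_integral_of_continuous (μ := nu E) (f := f) hf
    (s := Set.univ) isCompact_univ
  simpa using h

theorem hasFDerivAt_avg {u : E → ℝ} (hu : ContDiff ℝ 1 u) (hc : HasCompactSupport u) (x : E) :
    HasFDerivAt (avg u) (∫ Q, (fderiv ℝ u (act Q x)).comp (actL Q) ∂(nu E)) x := by
  obtain ⟨K, hK⟩ := (hu.continuous_fderiv one_ne_zero).bounded_above_of_compact_support
    (hc.fderiv ℝ)
  refine hasFDerivAt_integral_of_dominated_of_fderiv_le (s := univ) (bound := fun _ => K)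
    (F := fun x Q => u (act Q x)) (F' := fun x Q => (fderiv ℝ u (act Q x)).comp (actL Q))
    univ_mem ?_ ?_ ?_ ?_ (integrable_const K) ?_
  · refine Eventually.of_forall fun y => ?_
    exact (cont_rot1 hu.continuous y).aestronglyMeasurable
  · exact int_nu (cont_rot1 hu.continuous x)
  · exact (cont_drot1 hu x).aestronglyMeasurable
  · refine Eventually.of_forall fun Q y _ => ?_
    rw [norm_comp_actL]
    exact hK _
  · refine Eventually.of_forall fun Q y _ => ?_
    exact fderiv_rot hu Q y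

theorem contDiff_avg {u : E → ℝ} (hu : ContDiff ℝ 1 u) (hc : HasCompactSupport u) :
    ContDiff ℝ 1 (avg u) := by
  rw [contDiff_one_iff_fderiv]
  refine ⟨fun x => (hasFDerivAt_avg hu hc x).differentiableAt, ?_⟩
  have h : fderiv ℝ (avg u) = fun x => ∫ Q, (fderiv ℝ u (act Q x)).comp (actL Q) ∂(nu E) := by
    funext x
    exact (hasFDerivAt_avg hu hc x).fderiv
  rw [h]
  exact cont_param' (fun x Q => (fderiv ℝ u (act Q x)).comp (actL Q)) (cont_drot hu)

theorem supp_bound {u : E → ℝ} (hc : HasCompactSupport u) : ∃ R : ℝ, 0 < R ∧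
    ∀ x, R < ‖x‖ → u x = 0 := by
  obtain ⟨R, hR0, hR⟩ := hc.isCompact.isBounded.exists_pos_norm_le
  refine ⟨R, hR0, fun x hx => ?_⟩
  by_contra h
  exact absurd (hR x (subset_tsupport _ h)) (not_le.2 hx)

theorem avg_supp {u : E → ℝ} {R : ℝ} (hR : ∀ x, R < ‖x‖ → u x = 0) (x : E) (hx : R < ‖x‖) :
    avg u x = 0 := by
  unfold avg
  have : ∀ Q : unitary (E →L[ℝ] E), u (act Q x) = 0 := fun Q => hR _ (by rw [act_norm]; exact hx)
  simp [this]

theorem compact_avg {u : E → ℝ} (hc : HasCompactSupport u) : HasCompactSupport (avg u) := by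
  have : ProperSpace E := FiniteDimensional.proper_real _
  obtain ⟨R, hR0, hR⟩ := supp_bound hc
  refine HasCompactSupport.intro (isCompact_closedBall (0 : E) R) fun x hx => ?_
  rw [mem_closedBall_zero_iff, not_le] at hx
  exact avg_supp hR x hx

theorem avg_act (u : E → ℝ) (g : unitary (E →L[ℝ] E)) (x : E) :
    avg u ((g : E →L[ℝ] E) x) = avg u x := by
  unfold avg
  rw [← nu_shift g (fun Q => u (act Q x))]
  refine integral_congr_ae (Eventually.of_forall fun Q => ?_)
  simp only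
  rw [act_mul]

theorem avg_act' (u : E → ℝ) (Q : unitary (E →L[ℝ] E)) (x : E) : avg u (act Q x) = avg u x :=
  avg_act u Q⁻¹ x

theorem avg_radial {m : ℕ} (hdim : Module.finrank ℝ E = m + 1) (u : E → ℝ) (x y : E)
    (h : ‖x‖ = ‖y‖) : avg u x = avg u y := by
  by_cases hx : x = 0
  · have hy : y = 0 := by
      rw [← norm_eq_zero, ← h, hx, norm_zero]
    rw [hx, hy]
  have hx0 : ‖x‖ ≠ 0 := norm_ne_zero_iff.2 hx
  obtain ⟨b, hb⟩ := exists_onb1 hdim (‖x‖⁻¹ • x) (by
    rw [norm_smul, norm_inv, norm_norm, inv_mul_cancel₀ hx0])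
  obtain ⟨c, hc⟩ := exists_onb1 hdim (‖x‖⁻¹ • y) (by
    rw [norm_smul, norm_inv, norm_norm, ← h, inv_mul_cancel₀ hx0])
  obtain ⟨g, hg⟩ := exists_UG b c
  have h0 := hg 0
  rw [hb, hc, map_smul] at h0
  have h1 : (g : E →L[ℝ] E) x = y := by
    have := congrArg (fun v => ‖x‖ • v) h0
    simpa [smul_smul, mul_inv_cancel₀ hx0] using this
  rw [← h1, avg_act]

/-- variance decomposition for real functions -/
theorem var_real (f : unitary (E →L[ℝ] E) → ℝ) (hf : Continuous f) :
    ∫ Q, (f Q) ^ 2 ∂(nu E) = (∫ Q, f Q ∂(nu E)) ^ 2 + ∫ Q, (f Q - ∫ Q, f Q ∂(nu E)) ^ 2 ∂(nu E) := by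
  set m := ∫ Q, f Q ∂(nu E) with hm
  have e : ∀ Q, (f Q - m) ^ 2 = (f Q) ^ 2 - 2 * m * f Q + m ^ 2 := fun Q => by ring
  have h1 : Integrable (fun Q => (f Q) ^ 2) (nu E) := int_nu (hf.pow 2)
  have h2 : Integrable (fun Q => 2 * m * f Q) (nu E) := (int_nu hf).const_mul _
  have h3 : Integrable (fun Q => (f Q) ^ 2 - 2 * m * f Q) (nu E) := h1.sub h2
  simp only [e]
  rw [integral_add h3 (integrable_const _), integral_sub h1 h2, integral_const_mul, ← hm,
    integral_const, probReal_univ, one_smul]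
  ring

theorem norm_sq_dual (b : OrthonormalBasis (Fin (Module.finrank ℝ E)) ℝ E) (L : E →L[ℝ] ℝ) :
    ‖L‖ ^ 2 = ∑ i, (L (b i)) ^ 2 := by
  set v := (InnerProductSpace.toDual ℝ E).symm L with hv
  have h1 : ‖L‖ = ‖v‖ := by rw [hv, LinearIsometryEquiv.norm_map]
  rw [h1, ← b.sum_sq_norm_inner_right v]
  refine Finset.sum_congr rfl fun i _ => ?_
  have h2 : L (b i) = inner ℝ v (b i) := by
    rw [hv, InnerProductSpace.toDual_symm_apply]
  rw [h2, real_inner_comm]
  simp

theorem var_dual (f : unitary (E →L[ℝ] E) → E →L[ℝ] ℝ) (hf : Continuous f) :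
    ∫ Q, ‖f Q‖ ^ 2 ∂(nu E) = ‖∫ Q, f Q ∂(nu E)‖ ^ 2
      + ∫ Q, ‖f Q - ∫ Q, f Q ∂(nu E)‖ ^ 2 ∂(nu E) := by
  set b := stdOrthonormalBasis ℝ E
  have hap : ∀ i, (∫ Q, f Q ∂(nu E)) (b i) = ∫ Q, f Q (b i) ∂(nu E) := fun i =>
    ContinuousLinearMap.integral_apply (int_nu hf) _
  have hci : ∀ i, Continuous fun Q => f Q (b i) := fun i =>
    hf.clm_apply continuous_const
  simp only [norm_sq_dual b, sub_apply, hap]
  have h1 : ∀ i, Integrable (fun Q => (f Q (b i)) ^ 2) (nu E) := fun i => int_nu ((hci i).pow 2)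
  have h2 : ∀ i, Integrable (fun Q => (f Q (b i) - ∫ Q, f Q (b i) ∂(nu E)) ^ 2) (nu E) := fun i =>
    int_nu (((hci i).sub continuous_const).pow 2)
  rw [integral_finsetSum _ fun i _ => h1 i, integral_finsetSum _ fun i _ => h2 i,
    ← Finset.sum_add_distrib]
  exact Finset.sum_congr rfl fun i _ => var_real _ (hci i)

end Gen

end Pool.Agent.U588.WH
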