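import Mathlib

/-!
# Weighted Hardy inequality with weight `(1+|x|^2)^α`: basic calculus
-/

set_option autoImplicit false

open MeasureTheory Set Filter Topology
open scoped ContDiff

namespace Pool.Agent.U588.WH

/-- Euclidean space. -/
abbrev V (n : ℕ) := EuclideanSpace ℝ (Fin n)

variable {n : ℕ}

theorem one_add_pos (x : V n) : 0 < 1 + ‖x‖ ^ 2 := by positivity

theorem hasFDerivAt_wt (s : ℝ) (x : V n) :
    HasFDerivAt (fun x : V n => (1 + ‖x‖ ^ 2) ^ s)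
      ((s * (1 + ‖x‖ ^ 2) ^ (s - 1)) • ((2 : ℝ) • innerSL ℝ x)) x := by
  have h1 : HasFDerivAt (fun x : V n => 1 + ‖x‖ ^ 2) ((2 : ℝ) • innerSL ℝ x) x := by
    have h := (hasStrictFDerivAt_norm_sq x).hasFDerivAt
    have h2 := h.const_add (1 : ℝ)
    rw [two_smul] at h2
    rw [two_smul]
    exact h2
  have h2 := h1.rpow_const (p := s) (Or.inl (one_add_pos x).ne')
  simpa using h2

theorem contDiff_wt (s : ℝ) : ContDiff ℝ ∞ (fun x : V n => (1 + ‖x‖ ^ 2) ^ s) := by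
  have h1 : ContDiff ℝ ∞ (fun x : V n => 1 + ‖x‖ ^ 2) := contDiff_const.add (contDiff_norm_sq ℝ)
  exact h1.rpow_const_of_ne fun x => (one_add_pos x).ne'

theorem continuous_wt (s : ℝ) : Continuous (fun x : V n => (1 + ‖x‖ ^ 2) ^ s) :=
  (contDiff_wt s).continuous

theorem wt_pos (s : ℝ) (x : V n) : 0 < (1 + ‖x‖ ^ 2) ^ s := Real.rpow_pos_of_pos (one_add_pos x) s

theorem wt_split (s : ℝ) (x : V n) :
    (1 + ‖x‖ ^ 2) ^ s = (1 + ‖x‖ ^ 2) ^ (s - 1) * (1 + ‖x‖ ^ 2) := by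
  rw [← Real.rpow_add_one (one_add_pos x).ne']
  congr 1
  ring

/-- the vector field identity `div ((1+|x|^2)^s x) = n (1+|x|^2)^s + 2 s |x|^2 (1+|x|^2)^(s-1)`,
tested against a compactly supported function -/
theorem int_div (s : ℝ) (f : V n → ℝ) (hf : ContDiff ℝ 1 f) (hc : HasCompactSupport f) :
    ∫ x, f x * ((n : ℝ) * (1 + ‖x‖ ^ 2) ^ s + 2 * s * ‖x‖ ^ 2 * (1 + ‖x‖ ^ 2) ^ (s - 1)) =
      - ∫ x, (fderiv ℝ f x x) * (1 + ‖x‖ ^ 2) ^ s := by
  set g : Fin n → V n → ℝ := fun i x => (1 + ‖x‖ ^ 2) ^ s * x i with hg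
  set e : Fin n → V n := fun i => EuclideanSpace.single i 1 with he
  have hproj : ∀ (i : Fin n) (x : V n),
      HasFDerivAt (fun x : V n => x i) (EuclideanSpace.proj (𝕜 := ℝ) i : V n →L[ℝ] ℝ) x := by
    intro i x
    exact (EuclideanSpace.proj (𝕜 := ℝ) i : V n →L[ℝ] ℝ).hasFDerivAt
  have hgd : ∀ i x, HasFDerivAt (g i)
      ((1 + ‖x‖ ^ 2) ^ s • (EuclideanSpace.proj (𝕜 := ℝ) i : V n →L[ℝ] ℝ)
        + x i • ((s * (1 + ‖x‖ ^ 2) ^ (s - 1)) • ((2 : ℝ) • innerSL ℝ x))) x := by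
    intro i x
    exact (hasFDerivAt_wt s x).mul (hproj i x)
  have hgi : ∀ i x, fderiv ℝ (g i) x (e i)
      = (1 + ‖x‖ ^ 2) ^ s + 2 * s * (x i) ^ 2 * (1 + ‖x‖ ^ 2) ^ (s - 1) := by
    intro i x
    rw [(hgd i x).fderiv]
    simp only [he, add_apply, smul_apply, smul_eq_mul,
      innerSL_apply_apply, EuclideanSpace.inner_single_right]
    simp
    ring
  have hgc : ∀ i, ContDiff ℝ 1 (g i) := fun i =>
    ((contDiff_wt s).of_le (by norm_num)).mul
      (EuclideanSpace.proj (𝕜 := ℝ) i : V n →L[ℝ] ℝ).contDiff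
  have hfd : Continuous (fderiv ℝ f) := hf.continuous_fderiv one_ne_zero
  have hfdc : HasCompactSupport (fderiv ℝ f) := hc.fderiv ℝ
  have hI1 : ∀ i, Integrable (fun x => fderiv ℝ f x (e i) * g i x) := by
    intro i
    have hcont : Continuous (fun x => fderiv ℝ f x (e i) * g i x) :=
      (hfd.clm_apply continuous_const).mul (hgc i).continuous
    refine hcont.integrable_of_hasCompactSupport ?_
    refine HasCompactSupport.mul_right ?_
    exact hc.fderiv_apply ℝ (e i)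
  have hI2 : ∀ i, Integrable (fun x => f x * fderiv ℝ (g i) x (e i)) := by
    intro i
    have hcont : Continuous (fun x => f x * fderiv ℝ (g i) x (e i)) :=
      hf.continuous.mul (((hgc i).continuous_fderiv one_ne_zero).clm_apply continuous_const)
    exact hcont.integrable_of_hasCompactSupport hc.mul_right
  have hI3 : ∀ i, Integrable (fun x => f x * g i x) := by
    intro i
    exact (hf.continuous.mul (hgc i).continuous).integrable_of_hasCompactSupport hc.mul_right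
  have key : ∀ i, ∫ x, f x * fderiv ℝ (g i) x (e i) = - ∫ x, fderiv ℝ f x (e i) * g i x :=
    fun i => integral_mul_fderiv_eq_neg_fderiv_mul_of_integrable (hI1 i) (hI2 i) (hI3 i)
      (fun x _ => hf.differentiable one_ne_zero x)
      (fun x _ => (hgc i).differentiable one_ne_zero x)
  have hsum := Finset.sum_congr rfl (fun i (_ : i ∈ Finset.univ) => key i)
  rw [← integral_finsetSum _ (fun i _ => hI2 i), Finset.sum_neg_distrib,
    ← integral_finsetSum _ (fun i _ => hI1 i)] at hsum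
  have e1 : ∀ x : V n, ∑ i, f x * fderiv ℝ (g i) x (e i)
      = f x * ((n : ℝ) * (1 + ‖x‖ ^ 2) ^ s + 2 * s * ‖x‖ ^ 2 * (1 + ‖x‖ ^ 2) ^ (s - 1)) := by
    intro x
    rw [← Finset.mul_sum]
    congr 1
    simp only [hgi]
    rw [Finset.sum_add_distrib, Finset.sum_const, Finset.card_univ, Fintype.card_fin, nsmul_eq_mul,
      ← Finset.sum_mul, ← Finset.mul_sum, EuclideanSpace.real_norm_sq_eq]
  have e2 : ∀ x : V n, ∑ i, fderiv ℝ f x (e i) * g i x = (fderiv ℝ f x x) * (1 + ‖x‖ ^ 2) ^ s := by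
    intro x
    have hx : x = ∑ i, x i • e i := by
      have := (EuclideanSpace.basisFun (Fin n) ℝ).sum_repr x
      simpa [he] using this.symm
    have h3 : fderiv ℝ f x x = ∑ i, x i * fderiv ℝ f x (e i) := by
      conv_lhs => rw [hx]
      rw [← hx]
      conv_lhs => rw [hx]
      rw [map_sum]
      simp only [← hx, map_smul, smul_eq_mul]
    rw [h3, Finset.sum_mul]
    refine Finset.sum_congr rfl fun i _ => ?_
    simp only [hg]
    ring
  simp only [e1, e2] at hsum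
  exact hsum

/-- completing the square with `(1+|x|^2)^(-β)` -/
theorem square_lower (α β : ℝ) (u : V n → ℝ) (hu : ContDiff ℝ 1 u) (hc : HasCompactSupport u) :
    ∫ x, (u x) ^ 2 * ((1 + ‖x‖ ^ 2) ^ (α - 2) *
        (2 * β * ((n : ℝ) + ((n : ℝ) + 2 * α - 2 - 2 * β) * ‖x‖ ^ 2)))
      ≤ ∫ x, (1 + ‖x‖ ^ 2) ^ α * ‖fderiv ℝ u x‖ ^ 2 := by
  have hud : Continuous (fderiv ℝ u) := hu.continuous_fderiv one_ne_zero
  have hf : ContDiff ℝ 1 (fun x => (u x) ^ 2) := hu.pow 2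
  have hfc : HasCompactSupport (fun x => (u x) ^ 2) := by
    have : (fun x => (u x) ^ 2) = fun x => u x * u x := by funext x; ring
    rw [this]
    exact hc.mul_right
  have hdiv := int_div (α - 1) (fun x => (u x) ^ 2) hf hfc
  have hfd : ∀ x : V n, fderiv ℝ (fun x => (u x) ^ 2) x x = 2 * u x * fderiv ℝ u x x := by
    intro x
    have h := ((hu.differentiable one_ne_zero x).hasFDerivAt.pow 2).fderiv
    rw [h]
    simp
  -- the integrable pieces
  have hI1 : Integrable (fun x : V n => (u x) ^ 2 * ((n : ℝ) * (1 + ‖x‖ ^ 2) ^ (α - 1)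
      + 2 * (α - 1) * ‖x‖ ^ 2 * (1 + ‖x‖ ^ 2) ^ (α - 1 - 1))) := by
    refine Continuous.integrable_of_hasCompactSupport ?_ hfc.mul_right
    exact hf.continuous.mul ((continuous_const.mul (continuous_wt _)).add
      ((continuous_const.mul (continuous_norm.pow 2)).mul (continuous_wt _)))
  have hcd : HasCompactSupport (fun x : V n => fderiv ℝ u x x) := by
    refine HasCompactSupport.mono' (f := fderiv ℝ u) (hc.fderiv ℝ) ?_
    intro x hx
    refine subset_tsupport _ ?_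
    rw [Function.mem_support] at hx ⊢
    intro h0
    exact hx (by rw [h0]; rfl)
  have hI2 : Integrable (fun x : V n => (2 * u x * fderiv ℝ u x x) * (1 + ‖x‖ ^ 2) ^ (α - 1)) := by
    refine Continuous.integrable_of_hasCompactSupport ?_ ?_
    · exact ((continuous_const.mul hu.continuous).mul (hud.clm_apply continuous_id)).mul
        (continuous_wt _)
    · exact (hcd.mul_left).mul_right
  have hI3 : Integrable (fun x : V n => (1 + ‖x‖ ^ 2) ^ α * ‖fderiv ℝ u x‖ ^ 2) := by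
    refine Continuous.integrable_of_hasCompactSupport
      ((continuous_wt _).mul (hud.norm.pow 2)) ?_
    refine HasCompactSupport.mul_left ?_
    refine HasCompactSupport.mono' (f := fderiv ℝ u) (hc.fderiv ℝ) ?_
    intro x hx
    refine subset_tsupport _ ?_
    rw [Function.mem_support] at hx ⊢
    intro h0
    exact hx (by simp [h0])
  have hI4 : Integrable (fun x : V n => (u x) ^ 2 * (4 * β ^ 2 * ‖x‖ ^ 2 *
      (1 + ‖x‖ ^ 2) ^ (α - 2))) := by
    refine Continuous.integrable_of_hasCompactSupport ?_ hfc.mul_right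
    exact hf.continuous.mul ((continuous_const.mul (continuous_norm.pow 2)).mul (continuous_wt _))
  have hpt : ∀ x : V n, 0 ≤ (1 + ‖x‖ ^ 2) ^ α * ‖fderiv ℝ u x‖ ^ 2
      + 2 * β * ((2 * u x * fderiv ℝ u x x) * (1 + ‖x‖ ^ 2) ^ (α - 1))
      + (u x) ^ 2 * (4 * β ^ 2 * ‖x‖ ^ 2 * (1 + ‖x‖ ^ 2) ^ (α - 2)) := by
    intro x
    have e1 : (1 + ‖x‖ ^ 2) ^ (α - 1) = (1 + ‖x‖ ^ 2) ^ (α - 2) * (1 + ‖x‖ ^ 2) := by
      rw [wt_split (α - 1)]
      congr 2
      ring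
    have e2 : (1 + ‖x‖ ^ 2) ^ α = (1 + ‖x‖ ^ 2) ^ (α - 2) * (1 + ‖x‖ ^ 2) ^ 2 := by
      rw [wt_split α, e1]
      ring
    have hw := wt_pos (α - 2) x
    have hle : |fderiv ℝ u x x| ≤ ‖fderiv ℝ u x‖ * ‖x‖ := (fderiv ℝ u x).le_opNorm x
    rw [e1, e2]
    set W := (1 + ‖x‖ ^ 2) ^ (α - 2)
    set D := ‖fderiv ℝ u x‖
    set r := ‖x‖
    set d := fderiv ℝ u x x
    have hsq : 0 ≤ ((1 + r ^ 2) * D) ^ 2 + 4 * β * u x * d * (1 + r ^ 2)
        + 4 * β ^ 2 * r ^ 2 * (u x) ^ 2 := by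
      have h1 : -(|2 * β * u x| * ((D * r) * (1 + r ^ 2))) ≤ 2 * β * u x * d * (1 + r ^ 2) := by
        have h2 : |2 * β * u x * d * (1 + r ^ 2)| ≤ |2 * β * u x| * ((D * r) * (1 + r ^ 2)) := by
          rw [abs_mul, abs_mul (2 * β * u x) d, abs_of_pos (show 0 < 1 + r ^ 2 by positivity),
            mul_assoc]
          gcongr
        linarith [neg_abs_le (2 * β * u x * d * (1 + r ^ 2))]
      have h3 : 4 * β ^ 2 * r ^ 2 * (u x) ^ 2 = (|2 * β * u x| * r) ^ 2 := by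
        rw [mul_pow, sq_abs]; ring
      rw [h3]
      nlinarith [sq_nonneg ((1 + r ^ 2) * D - |2 * β * u x| * r)]
    nlinarith [mul_nonneg hw.le hsq]
  have hint : 0 ≤ ∫ x : V n, ((1 + ‖x‖ ^ 2) ^ α * ‖fderiv ℝ u x‖ ^ 2
      + 2 * β * ((2 * u x * fderiv ℝ u x x) * (1 + ‖x‖ ^ 2) ^ (α - 1))
      + (u x) ^ 2 * (4 * β ^ 2 * ‖x‖ ^ 2 * (1 + ‖x‖ ^ 2) ^ (α - 2))) := integral_nonneg hpt
  have hI12 : Integrable (fun x : V n => (1 + ‖x‖ ^ 2) ^ α * ‖fderiv ℝ u x‖ ^ 2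
      + 2 * β * ((2 * u x * fderiv ℝ u x x) * (1 + ‖x‖ ^ 2) ^ (α - 1))) :=
    hI3.add (hI2.const_mul (2 * β))
  rw [integral_add hI12 hI4,
    integral_add hI3 (hI2.const_mul (2 * β)), integral_const_mul] at hint
  have hdiv' : ∫ x, (2 * u x * fderiv ℝ u x x) * (1 + ‖x‖ ^ 2) ^ (α - 1)
      = - ∫ x, (u x) ^ 2 * ((n : ℝ) * (1 + ‖x‖ ^ 2) ^ (α - 1)
      + 2 * (α - 1) * ‖x‖ ^ 2 * (1 + ‖x‖ ^ 2) ^ (α - 1 - 1)) := by
    rw [hdiv, neg_neg]
    refine integral_congr_ae (Eventually.of_forall fun x => ?_)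
    simp only [hfd]
  rw [hdiv'] at hint
  have hfin : ∫ x, (u x) ^ 2 * ((1 + ‖x‖ ^ 2) ^ (α - 2) *
        (2 * β * ((n : ℝ) + ((n : ℝ) + 2 * α - 2 - 2 * β) * ‖x‖ ^ 2)))
      = 2 * β * (∫ x, (u x) ^ 2 * ((n : ℝ) * (1 + ‖x‖ ^ 2) ^ (α - 1)
      + 2 * (α - 1) * ‖x‖ ^ 2 * (1 + ‖x‖ ^ 2) ^ (α - 1 - 1)))
      - ∫ x, (u x) ^ 2 * (4 * β ^ 2 * ‖x‖ ^ 2 * (1 + ‖x‖ ^ 2) ^ (α - 2)) := by
    rw [← integral_const_mul, ← integral_sub (hI1.const_mul _) hI4]
    refine integral_congr_ae (Eventually.of_forall fun x => ?_)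
    simp only
    have e1 : (1 + ‖x‖ ^ 2) ^ (α - 1) = (1 + ‖x‖ ^ 2) ^ (α - 2) * (1 + ‖x‖ ^ 2) := by
      rw [wt_split (α - 1)]
      congr 2
      ring
    have e3 : α - 1 - 1 = α - 2 := by ring
    rw [e3, e1]
    ring
  rw [hfin]
  linarith

end Pool.Agent.U588.WH
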