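import Pool.Agent.U588.WH.Avg

/-!
# Orthogonal decomposition into the radial part and the rest
-/

set_option autoImplicit false
set_option linter.unusedSectionVars false

open MeasureTheory Set Filter Topology
open Pool.Agent.Helper28
open scoped ContDiff

namespace Pool.Agent.U588.WH

attribute [local instance] compactSpace_UG secondCountable_UG measUG borelUG

section Gen

variable {E : Type*} [NormedAddCommGroup E] [InnerProductSpace ℝ E] [CompleteSpace E]
  [FiniteDimensional ℝ E] [MeasurableSpace E] [BorelSpace E]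

theorem swap {F : E × unitary (E →L[ℝ] E) → ℝ} (hF : Continuous F) {R : ℝ}
    (hR : ∀ p : E × unitary (E →L[ℝ] E), R < ‖p.1‖ → F p = 0) :
    ∫ x, ∫ Q, F (x, Q) ∂(nu E) = ∫ Q, (∫ x, F (x, Q)) ∂(nu E) := by
  have : ProperSpace E := FiniteDimensional.proper_real _
  refine integral_integral_swap_of_hasCompactSupport (f := fun x Q => F (x, Q)) hF ?_
  refine HasCompactSupport.intro
    ((isCompact_closedBall (0 : E) R).prod (isCompact_univ (X := unitary (E →L[ℝ] E)))) ?_
  rintro ⟨x, Q⟩ hx
  refine hR _ ?_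
  by_contra h
  exact hx ⟨mem_closedBall_zero_iff.2 (not_lt.1 h), mem_univ _⟩

/-- averaging a compactly supported function over rotations does not change its integral -/
theorem swap_act {F : E → ℝ} (hF : Continuous F) {R : ℝ} (hR : ∀ x, R < ‖x‖ → F x = 0) :
    ∫ x, ∫ Q, F (act Q x) ∂(nu E) = ∫ x, F x := by
  have h := swap (F := fun p => F (act p.2 p.1)) (cont_rot hF) (R := R) (fun p hp =>
    hR _ (by rw [act_norm]; exact hp))
  simp only at h
  rw [h]
  have h2 : ∀ Q : unitary (E →L[ℝ] E), ∫ x, F (act Q x) = ∫ x, F x := fun Q => integral_act Q F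
  simp only [h2]
  rw [integral_const, probReal_univ, one_smul]

theorem int_of_bound {F : E → ℝ} (hF : Continuous F) {R : ℝ} (hR : ∀ x, R < ‖x‖ → F x = 0) :
    Integrable F := by
  have : ProperSpace E := FiniteDimensional.proper_real _
  refine hF.integrable_of_hasCompactSupport ?_
  refine HasCompactSupport.intro (isCompact_closedBall (0 : E) R) fun x hx => ?_
  rw [mem_closedBall_zero_iff, not_le] at hx
  exact hR x hx

variable {w : E → ℝ} (hw : Continuous w)
  (hwi : ∀ (Q : unitary (E →L[ℝ] E)) (x : E), w (act Q x) = w x)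

include hw hwi

theorem lin_avg {u : E → ℝ} (hu : Continuous u) (hc : HasCompactSupport u) :
    ∫ x, w x * avg u x = ∫ x, w x * u x := by
  obtain ⟨R, hR0, hR⟩ := supp_bound hc
  have h := swap_act (F := fun x => w x * u x) (hw.mul hu) (R := R) (fun x hx => by
    rw [hR x hx, mul_zero])
  rw [← h]
  refine integral_congr_ae (Eventually.of_forall fun x => ?_)
  simp only [hwi]
  unfold avg
  rw [integral_const_mul]

theorem mass_dec {u : E → ℝ} (hu : ContDiff ℝ 1 u) (hc : HasCompactSupport u) :
    ∫ x, w x * (u x) ^ 2 = (∫ x, w x * (avg u x) ^ 2) + ∫ x, w x * (u x - avg u x) ^ 2 := by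
  obtain ⟨R, hR0, hR⟩ := supp_bound hc
  have hac : Continuous (avg u) := (contDiff_avg hu hc).continuous
  have hvc : Continuous fun x => u x - avg u x := hu.continuous.sub hac
  have hva : ∀ x, R < ‖x‖ → u x - avg u x = 0 := fun x hx => by
    rw [hR x hx, avg_supp hR x hx, sub_zero]
  have h1 := swap_act (F := fun x => w x * (u x) ^ 2) (hw.mul (hu.continuous.pow 2)) (R := R)
    (fun x hx => by rw [hR x hx]; simp)
  have h2 := swap_act (F := fun x => w x * (u x - avg u x) ^ 2) (hw.mul (hvc.pow 2)) (R := R)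
    (fun x hx => by rw [hva x hx]; simp)
  rw [← h1, ← h2]
  simp only [hwi, avg_act']
  have i1 : Integrable fun x => w x * (avg u x) ^ 2 := int_of_bound (hw.mul (hac.pow 2)) (R := R)
    (fun x hx => by rw [avg_supp hR x hx]; simp)
  have i2 : Integrable fun x => ∫ Q, w x * (u (act Q x) - avg u x) ^ 2 ∂(nu E) := by
    refine int_of_bound (R := R) ?_ ?_
    · refine cont_param' (fun x Q => w x * (u (act Q x) - avg u x) ^ 2) ?_
      have e := cont_rot hu.continuous
      exact (hw.comp continuous_fst).mul ((e.sub (hac.comp continuous_fst)).pow 2)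
    · intro x hx
      have : ∀ Q : unitary (E →L[ℝ] E), w x * (u (act Q x) - avg u x) ^ 2 = 0 := by
        intro Q
        rw [hR _ (by rw [act_norm]; exact hx), avg_supp hR x hx]
        simp
      simp [this]
  rw [← integral_add i1 i2]
  refine integral_congr_ae (Eventually.of_forall fun x => ?_)
  simp only
  rw [integral_const_mul, integral_const_mul, var_real _ (cont_rot1 hu.continuous x)]
  unfold avg
  ring

theorem energy_dec {u : E → ℝ} (hu : ContDiff ℝ 1 u) (hc : HasCompactSupport u) :
    ∫ x, w x * ‖fderiv ℝ u x‖ ^ 2 = (∫ x, w x * ‖fderiv ℝ (avg u) x‖ ^ 2)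
      + ∫ x, w x * ‖fderiv ℝ (fun x => u x - avg u x) x‖ ^ 2 := by
  obtain ⟨R, hR0, hR⟩ := supp_bound hc
  have ha : ContDiff ℝ 1 (avg u) := contDiff_avg hu hc
  have hv : ContDiff ℝ 1 fun x => u x - avg u x := hu.sub ha
  have hda : Continuous (fderiv ℝ (avg u)) := ha.continuous_fderiv one_ne_zero
  have hdu : Continuous (fderiv ℝ u) := hu.continuous_fderiv one_ne_zero
  have hdv : Continuous (fderiv ℝ fun x => u x - avg u x) := hv.continuous_fderiv one_ne_zero
  have hzero : ∀ (g : E → ℝ), (∀ x, R < ‖x‖ → g x = 0) → ∀ x, R < ‖x‖ → fderiv ℝ g x = 0 := by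
    intro g hg x hx
    have h1 : g =ᶠ[𝓝 x] fun _ => 0 := by
      have h2 : ∀ᶠ y in 𝓝 x, R < ‖y‖ := continuous_norm.continuousAt.eventually_const_lt hx
      filter_upwards [h2] with y hy
      exact hg y hy
    rw [h1.fderiv_eq]
    simp
  have hdR := hzero u hR
  have hdaR := hzero (avg u) (avg_supp hR)
  have hdvR := hzero (fun x => u x - avg u x) (fun x hx => by
    rw [hR x hx, avg_supp hR x hx, sub_zero])
  have h1 := swap_act (F := fun x => w x * ‖fderiv ℝ u x‖ ^ 2) (hw.mul (hdu.norm.pow 2)) (R := R)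
    (fun x hx => by rw [hdR x hx]; simp)
  have h2 := swap_act (F := fun x => w x * ‖fderiv ℝ (fun x => u x - avg u x) x‖ ^ 2)
    (hw.mul (hdv.norm.pow 2)) (R := R) (fun x hx => by rw [hdvR x hx]; simp)
  -- the derivative of `v` at rotated points
  have hav : ∀ (Q : unitary (E →L[ℝ] E)) (x : E),
      fderiv ℝ (avg u) x = (fderiv ℝ (avg u) (act Q x)).comp (actL Q) := by
    intro Q x
    have h3 := (fderiv_rot ha Q x).fderiv
    have h4 : rot (avg u) Q = avg u := by
      funext y
      exact avg_act' u Q y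
    rw [h4] at h3
    exact h3
  have hvn : ∀ (Q : unitary (E →L[ℝ] E)) (x : E),
      ‖fderiv ℝ (fun x => u x - avg u x) (act Q x)‖
        = ‖(fderiv ℝ u (act Q x)).comp (actL Q) - fderiv ℝ (avg u) x‖ := by
    intro Q x
    rw [← norm_comp_actL _ Q, hav Q x]
    congr 1
    have h5 : fderiv ℝ (fun x => u x - avg u x) (act Q x)
        = fderiv ℝ u (act Q x) - fderiv ℝ (avg u) (act Q x) :=
      fderiv_fun_sub (hu.differentiable one_ne_zero _) (ha.differentiable one_ne_zero _)
    rw [h5]
    rfl
  have hun : ∀ (Q : unitary (E →L[ℝ] E)) (x : E),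
      ‖fderiv ℝ u (act Q x)‖ = ‖(fderiv ℝ u (act Q x)).comp (actL Q)‖ := fun Q x =>
    (norm_comp_actL _ Q).symm
  rw [← h1, ← h2]
  simp only [hwi, hvn]
  have i1 : Integrable fun x => w x * ‖fderiv ℝ (avg u) x‖ ^ 2 :=
    int_of_bound (hw.mul (hda.norm.pow 2)) (R := R) (fun x hx => by rw [hdaR x hx]; simp)
  have i2 : Integrable fun x =>
      ∫ Q, w x * ‖(fderiv ℝ u (act Q x)).comp (actL Q) - fderiv ℝ (avg u) x‖ ^ 2 ∂(nu E) := by
    refine int_of_bound (R := R) ?_ ?_
    · refine cont_param'
        (fun x Q => w x * ‖(fderiv ℝ u (act Q x)).comp (actL Q) - fderiv ℝ (avg u) x‖ ^ 2) ?_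
      have e := cont_drot hu
      have e2 : Continuous fun p : E × unitary (E →L[ℝ] E) => fderiv ℝ (avg u) p.1 :=
        hda.comp continuous_fst
      have e3 : Continuous fun p : E × unitary (E →L[ℝ] E) => w p.1 := hw.comp continuous_fst
      have e4 := e3.mul ((e.sub e2).norm.pow 2)
      exact e4
    · intro x hx
      have : ∀ Q : unitary (E →L[ℝ] E),
          w x * ‖(fderiv ℝ u (act Q x)).comp (actL Q) - fderiv ℝ (avg u) x‖ ^ 2 = 0 := by
        intro Q
        rw [hdR _ (by rw [act_norm]; exact hx), hdaR x hx]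
        simp
      simp [this]
  rw [← integral_add i1 i2]
  refine integral_congr_ae (Eventually.of_forall fun x => ?_)
  simp only [hun]
  rw [integral_const_mul, integral_const_mul, var_dual _ (cont_drot1 hu x),
    ← (hasFDerivAt_avg hu hc x).fderiv]
  ring

end Gen

end Pool.Agent.U588.WH
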