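import Pool.Agent.U588.WH.Ints

set_option autoImplicit false

open MeasureTheory Set Filter Topology
open scoped ContDiff

namespace Pool.Agent.U588.WH

variable {n : ℕ}

/-- the fixed bump -/
noncomputable def bump (n : ℕ) : ContDiffBump (0 : V n) := ⟨1, 2, one_pos, one_lt_two⟩

/-- the cut-off functions -/
noncomputable def cut (n : ℕ) (k : ℕ) (x : V n) : ℝ := bump n (((k : ℝ) + 1)⁻¹ • x)

theorem cut_contDiff (k : ℕ) : ContDiff ℝ ∞ (cut n k) :=
  (bump n).contDiff.comp (contDiff_const_smul _)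

theorem cut_nonneg (k : ℕ) (x : V n) : 0 ≤ cut n k x := (bump n).nonneg

theorem cut_le_one (k : ℕ) (x : V n) : cut n k x ≤ 1 := (bump n).le_one

theorem cut_compact (k : ℕ) : HasCompactSupport (cut n k) := by
  have hk : ((k : ℝ) + 1)⁻¹ ≠ 0 := by positivity
  exact (bump n).hasCompactSupport.comp_smul hk

theorem cut_even (k : ℕ) (x : V n) : cut n k (-x) = cut n k x := by
  unfold cut
  rw [smul_neg, (bump n).neg]

theorem cut_ev (x : V n) : ∀ᶠ k : ℕ in atTop, cut n k =ᶠ[𝓝 x] fun _ => 1 := by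
  have h1 : ∀ᶠ k : ℕ in atTop, ‖x‖ < (k : ℝ) + 1 := by
    have := tendsto_natCast_atTop_atTop (R := ℝ)
    filter_upwards [this.eventually_gt_atTop ‖x‖] with k hk
    linarith
  filter_upwards [h1] with k hk
  have hk0 : (0:ℝ) < (k : ℝ) + 1 := by positivity
  have h2 : ∀ᶠ y in 𝓝 x, ‖y‖ < (k : ℝ) + 1 := continuous_norm.continuousAt.eventually_lt
    continuousAt_const hk
  filter_upwards [h2] with y hy
  unfold cut
  refine (bump n).one_of_mem_closedBall ?_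
  rw [mem_closedBall_zero_iff, norm_smul, norm_inv, Real.norm_eq_abs, abs_of_pos hk0]
  show ((k : ℝ) + 1)⁻¹ * ‖y‖ ≤ 1
  rw [inv_mul_le_one₀ hk0]
  exact hy.le

theorem cut_fderiv : ∃ K : ℝ, 0 ≤ K ∧ ∀ (k : ℕ) (x : V n),
    ‖fderiv ℝ (cut n k) x‖ ^ 2 * (1 + ‖x‖ ^ 2) ≤ K := by
  have hcs : HasCompactSupport (fderiv ℝ (bump n)) := (bump n).hasCompactSupport.fderiv ℝ
  have hct : Continuous (fderiv ℝ (bump n)) :=
    ((bump n).contDiff (n := 1)).continuous_fderiv one_ne_zero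
  obtain ⟨K, hK⟩ := hct.bounded_above_of_compact_support hcs
  refine ⟨5 * K ^ 2, by positivity, fun k x => ?_⟩
  have hk0 : (0:ℝ) < (k : ℝ) + 1 := by positivity
  have hk1 : (1:ℝ) ≤ (k : ℝ) + 1 := by
    have : (0:ℝ) ≤ k := by positivity
    linarith
  have hd : fderiv ℝ (cut n k) x = ((k : ℝ) + 1)⁻¹ • fderiv ℝ (bump n) (((k : ℝ) + 1)⁻¹ • x) := by
    have h1 : HasFDerivAt (bump n) (fderiv ℝ (bump n) (((k : ℝ) + 1)⁻¹ • x))
        (((k : ℝ) + 1)⁻¹ • x) :=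
      (((bump n).contDiff (n := 1)).differentiable one_ne_zero _).hasFDerivAt
    have h2 : HasFDerivAt (fun x : V n => ((k : ℝ) + 1)⁻¹ • x)
        (((k : ℝ) + 1)⁻¹ • ContinuousLinearMap.id ℝ (V n)) x :=
      (((k : ℝ) + 1)⁻¹ • ContinuousLinearMap.id ℝ (V n)).hasFDerivAt
    have h3 := (h1.comp x h2).fderiv
    have h4 : cut n k = (bump n) ∘ (fun x : V n => ((k : ℝ) + 1)⁻¹ • x) := rfl
    rw [h4, h3]
    ext v
    simp
  rw [hd, norm_smul, norm_inv, Real.norm_eq_abs, abs_of_pos hk0]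
  by_cases hx : ‖x‖ ≤ 2 * ((k : ℝ) + 1)
  · have h5 : 1 + ‖x‖ ^ 2 ≤ 5 * ((k : ℝ) + 1) ^ 2 := by
      have : ‖x‖ ^ 2 ≤ (2 * ((k : ℝ) + 1)) ^ 2 := pow_le_pow_left₀ (norm_nonneg _) hx 2
      nlinarith
    have hKx := hK (((k : ℝ) + 1)⁻¹ • x)
    have hK0 : 0 ≤ ‖fderiv ℝ (bump n) (((k : ℝ) + 1)⁻¹ • x)‖ := norm_nonneg _
    rw [mul_pow]
    calc (((k : ℝ) + 1)⁻¹ ^ 2 * ‖fderiv ℝ (bump n) (((k : ℝ) + 1)⁻¹ • x)‖ ^ 2) * (1 + ‖x‖ ^ 2)
        ≤ (((k : ℝ) + 1)⁻¹ ^ 2 * K ^ 2) * (5 * ((k : ℝ) + 1) ^ 2) := by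
          gcongr
      _ = 5 * K ^ 2 := by
          field_simp
  · have h0 : fderiv ℝ (bump n) (((k : ℝ) + 1)⁻¹ • x) = 0 := by
      have hsupp : ((k : ℝ) + 1)⁻¹ • x ∉ tsupport (bump n) := by
        rw [(bump n).tsupport_eq, mem_closedBall_zero_iff, norm_smul, norm_inv, Real.norm_eq_abs,
          abs_of_pos hk0]
        show ¬ ((k : ℝ) + 1)⁻¹ * ‖x‖ ≤ 2
        rw [inv_mul_le_iff₀ hk0]
        push Not at hx ⊢
        linarith
      have := (notMem_tsupport_iff_eventuallyEq.1 hsupp).fderiv_eq (𝕜 := ℝ)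
      rw [this]
      simp
    rw [h0, norm_zero]
    simp
    positivity

/-- the weighted mass -/
noncomputable def mass (α : ℝ) (u : V n → ℝ) : ℝ := ∫ x, (1 + ‖x‖ ^ 2) ^ (α - 1) * (u x) ^ 2

/-- the weighted energy -/
noncomputable def energy (α : ℝ) (u : V n → ℝ) : ℝ := ∫ x, (1 + ‖x‖ ^ 2) ^ α * ‖fderiv ℝ u x‖ ^ 2

/-- the test functions -/
noncomputable def tst (ψ : V n → ℝ) (c : ℕ → ℝ) (k : ℕ) (x : V n) : ℝ := (ψ x - c k) * cut n k x

theorem tst_contDiff {ψ : V n → ℝ} (hψ : ContDiff ℝ ∞ ψ) (c : ℕ → ℝ) (k : ℕ) :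
    ContDiff ℝ ∞ (tst ψ c k) := (hψ.sub contDiff_const).mul (cut_contDiff k)

theorem tst_compact (ψ : V n → ℝ) (c : ℕ → ℝ) (k : ℕ) : HasCompactSupport (tst ψ c k) :=
  (cut_compact k).mul_left

theorem tst_lim {ψ : V n → ℝ} (hψ : ContDiff ℝ ∞ ψ) (α : ℝ) (c : ℕ → ℝ) (C : ℝ)
    (hC : ∀ k, |c k| ≤ C) (hc0 : Tendsto c atTop (𝓝 0))
    (hd : Integrable fun x : V n => (1 + ‖x‖ ^ 2) ^ (α - 1) * (|ψ x| + C) ^ 2)
    (he : Integrable fun x : V n => (1 + ‖x‖ ^ 2) ^ α * ‖fderiv ℝ ψ x‖ ^ 2) :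
    Tendsto (fun k => mass α (tst ψ c k)) atTop (𝓝 (mass α ψ)) ∧
    Tendsto (fun k => energy α (tst ψ c k)) atTop (𝓝 (energy α ψ)) := by
  obtain ⟨K, hK0, hK⟩ := cut_fderiv (n := n)
  have habs : ∀ k x, |ψ x - c k| ≤ |ψ x| + C := fun k x =>
    (abs_sub _ _).trans (add_le_add le_rfl (hC k))
  constructor
  · unfold mass
    refine tendsto_integral_of_dominated_convergence _ (fun k => ?_) hd (fun k => ?_) ?_
    · exact ((continuous_wt _).mul ((tst_contDiff hψ c k).continuous.pow 2)).aestronglyMeasurable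
    · refine Eventually.of_forall fun x => ?_
      rw [Real.norm_eq_abs, abs_mul, abs_of_pos (wt_pos _ _), abs_of_nonneg (sq_nonneg _)]
      refine mul_le_mul_of_nonneg_left ?_ (wt_pos _ _).le
      rw [← sq_abs]
      refine pow_le_pow_left₀ (abs_nonneg _) ?_ 2
      unfold tst
      rw [abs_mul, abs_of_nonneg (cut_nonneg k x)]
      exact (mul_le_mul (habs k x) (cut_le_one k x) (cut_nonneg k x) (by
        exact (abs_nonneg _).trans (habs k x))).trans (by rw [mul_one])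
    · refine Eventually.of_forall fun x => ?_
      have h1 : Tendsto (fun k => tst ψ c k x) atTop (𝓝 (ψ x)) := by
        have h2 : Tendsto (fun k => ψ x - c k) atTop (𝓝 (ψ x - 0)) := tendsto_const_nhds.sub hc0
        rw [sub_zero] at h2
        refine h2.congr' ?_
        filter_upwards [cut_ev x] with k hk
        unfold tst
        rw [hk.eq_of_nhds, mul_one]
      exact (h1.pow 2).const_mul _
  · unfold energy
    have hfd : ∀ k x, fderiv ℝ (tst ψ c k) x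
        = (ψ x - c k) • fderiv ℝ (cut n k) x + cut n k x • fderiv ℝ ψ x := by
      intro k x
      have h1 : HasFDerivAt (fun x => ψ x - c k) (fderiv ℝ ψ x) x :=
        ((hψ.differentiable (by simp) x).hasFDerivAt).sub_const _
      have h2 : HasFDerivAt (cut n k) (fderiv ℝ (cut n k) x) x :=
        (((cut_contDiff k).differentiable (by simp)) x).hasFDerivAt
      exact (h1.mul h2).fderiv
    have hdom : Integrable fun x : V n => 2 * K * ((1 + ‖x‖ ^ 2) ^ (α - 1) * (|ψ x| + C) ^ 2)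
        + 2 * ((1 + ‖x‖ ^ 2) ^ α * ‖fderiv ℝ ψ x‖ ^ 2) := (hd.const_mul _).add (he.const_mul _)
    refine tendsto_integral_of_dominated_convergence _ (fun k => ?_) hdom (fun k => ?_) ?_
    · exact ((continuous_wt _).mul
        (((tst_contDiff hψ c k).continuous_fderiv (by simp)).norm.pow 2)).aestronglyMeasurable
    · refine Eventually.of_forall fun x => ?_
      rw [Real.norm_eq_abs, abs_mul, abs_of_pos (wt_pos _ _), abs_of_nonneg (sq_nonneg _), hfd]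
      have h1 : ‖(ψ x - c k) • fderiv ℝ (cut n k) x + cut n k x • fderiv ℝ ψ x‖
          ≤ (|ψ x| + C) * ‖fderiv ℝ (cut n k) x‖ + ‖fderiv ℝ ψ x‖ := by
        refine (norm_add_le _ _).trans (add_le_add ?_ ?_)
        · rw [norm_smul, Real.norm_eq_abs]
          exact mul_le_mul_of_nonneg_right (habs k x) (norm_nonneg _)
        · rw [norm_smul, Real.norm_eq_abs, abs_of_nonneg (cut_nonneg k x)]
          exact (mul_le_mul_of_nonneg_right (cut_le_one k x) (norm_nonneg _)).trans (by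
            rw [one_mul])
      have h2 : ‖(ψ x - c k) • fderiv ℝ (cut n k) x + cut n k x • fderiv ℝ ψ x‖ ^ 2
          ≤ 2 * ((|ψ x| + C) ^ 2 * ‖fderiv ℝ (cut n k) x‖ ^ 2) + 2 * ‖fderiv ℝ ψ x‖ ^ 2 := by
        refine (pow_le_pow_left₀ (norm_nonneg _) h1 2).trans ?_
        nlinarith [sq_nonneg ((|ψ x| + C) * ‖fderiv ℝ (cut n k) x‖ - ‖fderiv ℝ ψ x‖)]
      have h3 := hK k x
      have h4 : (1 + ‖x‖ ^ 2) ^ α * ‖fderiv ℝ (cut n k) x‖ ^ 2
          ≤ K * (1 + ‖x‖ ^ 2) ^ (α - 1) := by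
        rw [wt_split α]
        have := wt_pos (α - 1) x
        nlinarith
      calc (1 + ‖x‖ ^ 2) ^ α * ‖(ψ x - c k) • fderiv ℝ (cut n k) x
            + cut n k x • fderiv ℝ ψ x‖ ^ 2
          ≤ (1 + ‖x‖ ^ 2) ^ α * (2 * ((|ψ x| + C) ^ 2 * ‖fderiv ℝ (cut n k) x‖ ^ 2)
            + 2 * ‖fderiv ℝ ψ x‖ ^ 2) := mul_le_mul_of_nonneg_left h2 (wt_pos _ _).le
        _ = 2 * (|ψ x| + C) ^ 2 * ((1 + ‖x‖ ^ 2) ^ α * ‖fderiv ℝ (cut n k) x‖ ^ 2)
            + 2 * ((1 + ‖x‖ ^ 2) ^ α * ‖fderiv ℝ ψ x‖ ^ 2) := by ring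
        _ ≤ 2 * (|ψ x| + C) ^ 2 * (K * (1 + ‖x‖ ^ 2) ^ (α - 1))
            + 2 * ((1 + ‖x‖ ^ 2) ^ α * ‖fderiv ℝ ψ x‖ ^ 2) := by gcongr
        _ = _ := by ring
    · refine Eventually.of_forall fun x => ?_
      refine tendsto_const_nhds.congr' ?_
      filter_upwards [cut_ev x] with k hk
      have h1 : fderiv ℝ (cut n k) x = 0 := by
        rw [hk.fderiv_eq]
        simp
      rw [hfd, h1, hk.eq_of_nhds]
      simp

end Pool.Agent.U588.WH
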