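import Pool.Agent.U588.WH.Lower

/-!
# Lower bounds without constraint, and the constants with constraint
-/

set_option autoImplicit false

open MeasureTheory Set Filter Topology
open scoped ContDiff

namespace Pool.Agent.U588.WH

variable {n : ℕ}

theorem free_lower {α β Λ : ℝ}
    (h : ∀ y : ℝ, 0 ≤ y → Λ * (1 + y) ≤ 2 * β * ((n : ℝ) + ((n : ℝ) + 2 * α - 2 - 2 * β) * y))
    (u : V n → ℝ) (hu : ContDiff ℝ 1 u) (hc : HasCompactSupport u) :
    Λ * mass α u ≤ energy α u := by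
  refine le_trans ?_ (square_lower α β u hu hc)
  unfold mass
  rw [← integral_const_mul]
  have hu2 : Continuous fun x => (u x) ^ 2 := hu.continuous.pow 2
  have hu2c : HasCompactSupport fun x => (u x) ^ 2 := by
    have : (fun x => (u x) ^ 2) = fun x => u x * u x := by funext x; ring
    rw [this]
    exact hc.mul_right
  have i1 : Integrable fun x : V n => Λ * ((1 + ‖x‖ ^ 2) ^ (α - 1) * (u x) ^ 2) := by
    refine Integrable.const_mul ?_ _
    exact ((continuous_wt _).mul hu2).integrable_of_hasCompactSupport hu2c.mul_left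
  have i2 : Integrable fun x : V n => (u x) ^ 2 * ((1 + ‖x‖ ^ 2) ^ (α - 2) *
        (2 * β * ((n : ℝ) + ((n : ℝ) + 2 * α - 2 - 2 * β) * ‖x‖ ^ 2))) := by
    refine Continuous.integrable_of_hasCompactSupport ?_ hu2c.mul_right
    refine hu2.mul ((continuous_wt _).mul ?_)
    fun_prop
  refine integral_mono i1 i2 fun x => ?_
  simp only
  have e1 : (1 + ‖x‖ ^ 2) ^ (α - 1) = (1 + ‖x‖ ^ 2) ^ (α - 2) * (1 + ‖x‖ ^ 2) := by
    rw [wt_split (α - 1)]
    congr 2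
    ring
  rw [e1]
  have h1 := h (‖x‖ ^ 2) (sq_nonneg _)
  have h2 := mul_le_mul_of_nonneg_left h1 (mul_nonneg (sq_nonneg (u x)) (wt_pos (α - 2) x).le)
  linarith

theorem lower_mid (hn : 3 ≤ n) {α : ℝ} (h1 : -((n : ℝ) - 2) / 2 < α) (h2 : α ≤ (n : ℝ) / 2 + 1)
    (u : V n → ℝ) (hu : ContDiff ℝ 1 u) (hc : HasCompactSupport u) :
    ((n : ℝ) + 2 * α - 2) ^ 2 / 4 * mass α u ≤ energy α u := by
  refine free_lower (β := ((n : ℝ) + 2 * α - 2) / 4) ?_ u hu hc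
  intro y hy
  have hb : 0 < (n : ℝ) + 2 * α - 2 := by linarith
  have hb2 : (n : ℝ) + 2 * α - 2 ≤ 2 * n := by linarith
  set b := (n : ℝ) + 2 * α - 2 with hbd
  have e : (2 * (b / 4) * ((n : ℝ) + (b - 2 * (b / 4)) * y)) - b ^ 2 / 4 * (1 + y)
      = b / 4 * (2 * n - b) := by ring
  have : 0 ≤ b / 4 * (2 * n - b) := mul_nonneg (by linarith) (by linarith)
  linarith

theorem lower_high {α : ℝ} (u : V n → ℝ) (hu : ContDiff ℝ 1 u) (hc : HasCompactSupport u) :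
    (2 * n * (α - 1)) * mass α u ≤ energy α u := by
  refine free_lower (β := α - 1) ?_ u hu hc
  intro y hy
  have : 2 * (α - 1) * ((n : ℝ) + ((n : ℝ) + 2 * α - 2 - 2 * (α - 1)) * y)
      = 2 * n * (α - 1) * (1 + y) := by ring
  rw [this]

theorem Ric.mono {N : ℕ} {α σ c Λ Λ' : ℝ} (h : Ric N α σ c Λ) (hL : Λ' ≤ Λ) :
    Ric N α σ c Λ' := by
  intro y hy
  have h1 := h y hy
  have h2 : Λ' * ((1 + y) * (y - c) ^ 2) ≤ Λ * ((1 + y) * (y - c) ^ 2) :=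
    mul_le_mul_of_nonneg_right hL (by positivity)
  linarith

/-- the three regimes below the critical value -/
theorem lower_con (hn : 3 ≤ n) {α : ℝ} (h : α < -((n : ℝ) - 2) / 2) (Λ : ℝ) (hΛ : 0 ≤ Λ)
    (hreg : (Λ ≤ -2 * α ∧ Λ ≤ -4 * α - 2 * n ∧ α ≤ -((n : ℝ) + 2) / 2) ∨
      (-((n : ℝ) + 2) / 2 ≤ α ∧ Λ = ((n : ℝ) + 2 * α - 2) ^ 2 / 4))
    (u : V n → ℝ) (hu : ContDiff ℝ 1 u) (hc : HasCompactSupport u)
    (h0 : ∫ x, (1 + ‖x‖ ^ 2) ^ (α - 1) * u x = 0) :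
    Λ * mass α u ≤ energy α u := by
  obtain ⟨N, rfl⟩ : ∃ N, n = N + 1 := ⟨n - 1, by omega⟩
  have hN : (3:ℝ) ≤ ((N + 1 : ℕ) : ℝ) := by exact_mod_cast hn
  have hα : α < 0 := by linarith
  push_cast at *
  rcases hreg with ⟨h1, h2, h3⟩ | ⟨h1, h2⟩
  · have hneg : (N : ℝ) + 1 + 2 * α < 0 := by linarith
    refine mean_lower (σ := 0) (c := -((N : ℝ) + 1) / ((N : ℝ) + 1 + 2 * α)) hα
      (div_pos_of_neg_of_neg (by linarith) hneg) (by norm_num) hΛ h1
      ((ric1 N α hneg).mono h2) u hu hc h0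
  · set k := -((N : ℝ) + 1 + 2 * α - 2) / 2 with hk
    have hk0 : 0 < k := by rw [hk]; linarith
    have hk2 : k ≤ 2 := by rw [hk]; linarith
    refine mean_lower (σ := -((N : ℝ) + 1 + 2 * α - 2) / 4 - 1) (c := ((N : ℝ) + 1) / 2) hα
      (by linarith) (by linarith) hΛ ?_ (h2 ▸ ric2 N α h1 h) u hu hc h0
    have e1 : Λ = k ^ 2 := by rw [h2, hk]; ring
    have e2 : -2 * α = 2 * k - 2 + ((N : ℝ) + 1) := by rw [hk]; ring
    rw [e1, e2]
    nlinarith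

end Pool.Agent.U588.WH
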