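import Pool.Agent.H212R2.KLS.R4

/-!
# Gaussian Poincaré inequality with the sharp constant, and its mixture
-/

set_option autoImplicit false

open MeasureTheory Set Filter Topology
open scoped ContDiff

namespace Pool.Agent.U588.WH

section Gen

variable {E : Type*} [NormedAddCommGroup E] [InnerProductSpace ℝ E]
  [FiniteDimensional ℝ E] [MeasurableSpace E] [BorelSpace E]

theorem gauss_poincare {t : ℝ} (ht : 0 < t) {f : E → ℝ} (hf : ContDiff ℝ 1 f)
    (hc : HasCompactSupport f) (h0 : ∫ x, Real.exp (-(t * ‖x‖ ^ 2)) * f x = 0) :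
    2 * t * ∫ x, Real.exp (-(t * ‖x‖ ^ 2)) * (f x) ^ 2
      ≤ ∫ x, Real.exp (-(t * ‖x‖ ^ 2)) * ‖fderiv ℝ f x‖ ^ 2 := by
  have : ProperSpace E := FiniteDimensional.proper_real _
  obtain ⟨R, hR0, hR⟩ := hc.isCompact.isBounded.exists_pos_norm_le
  have hfR : ∀ x, R < ‖x‖ → f x = 0 := by
    intro x hx
    by_contra h
    exact absurd (hR x (subset_tsupport _ h)) (not_le.2 hx)
  have hdR : ∀ x, R < ‖x‖ → fderiv ℝ f x = 0 := by
    intro x hx
    by_contra h
    exact absurd (hR x (support_fderiv_subset ℝ h)) (not_le.2 hx)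
  set G : E → ℝ := fun x => Real.exp (-(t * ‖x‖ ^ 2)) with hG
  have hGc : Continuous G := by
    rw [hG]
    fun_prop
  set w : E → ℝ := (Metric.closedBall (0 : E) R).indicator G with hw
  have hwm : Measurable w := hGc.measurable.indicator Metric.isClosed_closedBall.measurableSet
  have hw0 : ∀ x, 0 ≤ w x := fun x => indicator_nonneg (fun _ _ => (Real.exp_pos _).le) x
  have hin : ∀ x, ‖x‖ ≤ R → w x = G x := fun x hx =>
    indicator_of_mem (mem_closedBall_zero_iff.2 hx) _
  have hout : ∀ x, R < ‖x‖ → w x = 0 := fun x hx =>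
    indicator_of_notMem (fun h => absurd (mem_closedBall_zero_iff.1 h) (not_le.2 hx)) _
  obtain ⟨c, hcc⟩ := Pool.Agent.H212R2.KLS.poincare_of_strong (volume : Measure E) w hw0 hwm
    ⟨1, fun x => by
      by_cases hx : ‖x‖ ≤ R
      · rw [hin x hx, hG]
        simp only [Real.exp_le_one_iff]
        have : 0 ≤ t * ‖x‖ ^ 2 := by positivity
        linarith
      · rw [hout x (not_le.1 hx)]
        exact zero_le_one⟩ ⟨R, hout⟩ (2 * t) (by positivity) (by
      intro x y
      by_cases hx : ‖x‖ ≤ R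
      · by_cases hy : ‖y‖ ≤ R
        · have hm : ‖(1 / 2 : ℝ) • (x + y)‖ ≤ R := by
            rw [norm_smul]
            have h1 := norm_add_le x y
            have : ‖(1 / 2 : ℝ)‖ = 1 / 2 := by norm_num
            rw [this]
            linarith
          rw [hin x hx, hin y hy, hin _ hm, hG]
          simp only
          rw [← Real.exp_add, ← Real.exp_nat_mul, ← Real.exp_add, Real.exp_le_exp]
          have h1 : ‖(1 / 2 : ℝ) • (x + y)‖ ^ 2 = 1 / 4 * ‖x + y‖ ^ 2 := by
            rw [norm_smul, mul_pow]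
            norm_num
          have h2 := parallelogram_law_with_norm ℝ x y
          rw [h1]
          push_cast
          nlinarith
        · rw [hout y (not_le.1 hy), mul_zero]
          positivity
      · rw [hout x (not_le.1 hx), zero_mul]
        positivity) f hf
  -- replace the truncated weight
  have e1 : ∫ x, ‖fderiv ℝ f x‖ ^ 2 * w x = ∫ x, G x * ‖fderiv ℝ f x‖ ^ 2 := by
    refine integral_congr_ae (Eventually.of_forall fun x => ?_)
    simp only
    by_cases hx : ‖x‖ ≤ R
    · rw [hin x hx]; ring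
    · rw [hdR x (not_le.1 hx)]; simp
  have e2 : ∫ x, f x * w x = 0 := by
    rw [← h0]
    refine integral_congr_ae (Eventually.of_forall fun x => ?_)
    simp only
    by_cases hx : ‖x‖ ≤ R
    · rw [hin x hx]; ring
    · rw [hfR x (not_le.1 hx)]; simp
  have e3 : ∫ x, (f x) ^ 2 * w x = ∫ x, G x * (f x) ^ 2 := by
    refine integral_congr_ae (Eventually.of_forall fun x => ?_)
    simp only
    by_cases hx : ‖x‖ ≤ R
    · rw [hin x hx]; ring
    · rw [hfR x (not_le.1 hx)]; simp
  have hwi : Integrable w := by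
    rw [hw, integrable_indicator_iff Metric.isClosed_closedBall.measurableSet]
    exact hGc.continuousOn.integrableOn_compact (isCompact_closedBall _ _)
  have hfw : ∀ {φ : E → ℝ}, Continuous φ → Integrable (fun x => φ x * w x) := by
    intro φ hφ
    have h1 : (fun x => φ x * w x) = (Metric.closedBall (0 : E) R).indicator (fun x => φ x * G x) := by
      funext x
      by_cases hx : x ∈ Metric.closedBall (0 : E) R
      · rw [indicator_of_mem hx, hw, indicator_of_mem hx]
      · rw [indicator_of_notMem hx, hw, indicator_of_notMem hx, mul_zero]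
    rw [h1, integrable_indicator_iff Metric.isClosed_closedBall.measurableSet]
    exact (hφ.mul hGc).continuousOn.integrableOn_compact (isCompact_closedBall _ _)
  have e4 : ∫ x, (f x - c) ^ 2 * w x = (∫ x, (f x) ^ 2 * w x) + c ^ 2 * ∫ x, w x := by
    have i1 : Integrable (fun x => (f x) ^ 2 * w x) := hfw (hf.continuous.pow 2)
    have i2 : Integrable (fun x => f x * w x) := hfw hf.continuous
    have e : ∀ x, (f x - c) ^ 2 * w x = ((f x) ^ 2 * w x - 2 * c * (f x * w x)) + c ^ 2 * w x := by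
      intro x; ring
    have i3 : Integrable (fun x => (f x) ^ 2 * w x - 2 * c * (f x * w x)) := i1.sub (i2.const_mul _)
    simp only [e]
    rw [integral_add i3 (hwi.const_mul _), integral_sub i1 (i2.const_mul _), integral_const_mul,
      integral_const_mul, e2]
    ring
  rw [e4, e1, e3] at hcc
  have h5 : 0 ≤ c ^ 2 * ∫ x, w x := mul_nonneg (sq_nonneg _) (integral_nonneg hw0)
  have h6 : ∫ x, G x * (f x) ^ 2 ≤ (2 * t)⁻¹ * ∫ x, G x * ‖fderiv ℝ f x‖ ^ 2 := by linarith
  have h7 := mul_le_mul_of_nonneg_left h6 (show 0 ≤ 2 * t by positivity)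
  rw [← mul_assoc, mul_inv_cancel₀ (by positivity), one_mul] at h7
  exact h7

/-- Gaussian mixtures give the power weights -/
theorem mixture {s : ℝ} (hs : 0 < s) {g : E → ℝ} (hg : Continuous g) (hc : HasCompactSupport g) :
    IntegrableOn (fun t : ℝ => t ^ (s - 1) * Real.exp (-t) *
      ∫ x, Real.exp (-(t * ‖x‖ ^ 2)) * g x) (Ioi 0) ∧
    ∫ t in Ioi (0:ℝ), t ^ (s - 1) * Real.exp (-t) * ∫ x, Real.exp (-(t * ‖x‖ ^ 2)) * g x
      = Real.Gamma s * ∫ x, (1 + ‖x‖ ^ 2) ^ (-s) * g x := by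
  set F : ℝ × E → ℝ := fun p =>
    (p.1 ^ (s - 1) * Real.exp (-p.1)) * (Real.exp (-(p.1 * ‖p.2‖ ^ 2)) * g p.2) with hF
  have hgi : Integrable g := hg.integrable_of_hasCompactSupport hc
  have hti : IntegrableOn (fun t : ℝ => t ^ (s - 1) * Real.exp (-t)) (Ioi 0) := by
    have := Real.GammaIntegral_convergent hs
    refine this.congr_fun (fun t _ => ?_) measurableSet_Ioi
    simp only
    ring
  have hFm : AEStronglyMeasurable F ((volume.restrict (Ioi (0:ℝ))).prod (volume : Measure E)) := by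
    have h1 : Measurable fun p : ℝ × E => p.1 ^ (s - 1) * Real.exp (-p.1) := by fun_prop
    have h2 : Continuous fun p : ℝ × E => Real.exp (-(p.1 * ‖p.2‖ ^ 2)) * g p.2 := by fun_prop
    exact (h1.mul h2.measurable).aestronglyMeasurable
  have hFi : Integrable F ((volume.restrict (Ioi (0:ℝ))).prod (volume : Measure E)) := by
    have hdom : Integrable (fun p : ℝ × E => (p.1 ^ (s - 1) * Real.exp (-p.1)) * g p.2)
        ((volume.restrict (Ioi (0:ℝ))).prod (volume : Measure E)) := Integrable.mul_prod hti hgi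
    refine hdom.mono hFm ?_
    have h1 : ∀ᵐ p ∂((volume.restrict (Ioi (0:ℝ))).prod (volume : Measure E)), 0 < p.1 := by
      have h2 : ∀ᵐ t ∂(volume.restrict (Ioi (0:ℝ))), 0 < t :=
        ae_restrict_mem measurableSet_Ioi
      exact (Measure.quasiMeasurePreserving_fst (μ := volume.restrict (Ioi (0:ℝ)))
        (ν := (volume : Measure E))).ae h2
    filter_upwards [h1] with p hp
    simp only [hF]
    rw [norm_mul, norm_mul (p.1 ^ (s - 1) * Real.exp (-p.1)),
      norm_mul (Real.exp (-(p.1 * ‖p.2‖ ^ 2)))]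
    refine mul_le_mul_of_nonneg_left ?_ (norm_nonneg _)
    have h3 : ‖Real.exp (-(p.1 * ‖p.2‖ ^ 2))‖ ≤ 1 := by
      rw [Real.norm_eq_abs, abs_of_pos (Real.exp_pos _), Real.exp_le_one_iff]
      have : 0 ≤ p.1 * ‖p.2‖ ^ 2 := by positivity
      linarith
    calc ‖Real.exp (-(p.1 * ‖p.2‖ ^ 2))‖ * ‖g p.2‖ ≤ 1 * ‖g p.2‖ :=
          mul_le_mul_of_nonneg_right h3 (norm_nonneg _)
      _ = _ := one_mul _
  have hin : ∀ t, ∫ x, F (t, x) = t ^ (s - 1) * Real.exp (-t) *
      ∫ x, Real.exp (-(t * ‖x‖ ^ 2)) * g x := by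
    intro t
    simp only [hF]
    rw [integral_const_mul]
  constructor
  · have := hFi.integral_prod_left
    simp only [hin] at this
    exact this
  · have hsw := integral_integral_swap (f := fun t x => F (t, x)) hFi
    simp only [hin] at hsw
    rw [hsw, ← integral_const_mul]
    refine integral_congr_ae (Eventually.of_forall fun x => ?_)
    simp only [hF]
    have hb : (0:ℝ) < 1 + ‖x‖ ^ 2 := by positivity
    have h4 := Real.integral_rpow_mul_exp_neg_mul_Ioi hs hb
    have h5 : ∫ t in Ioi (0:ℝ), (t ^ (s - 1) * Real.exp (-t)) * (Real.exp (-(t * ‖x‖ ^ 2)) * g x)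
        = (∫ t in Ioi (0:ℝ), t ^ (s - 1) * Real.exp (-((1 + ‖x‖ ^ 2) * t))) * g x := by
      rw [← integral_mul_const]
      refine integral_congr_ae (Eventually.of_forall fun t => ?_)
      simp only
      have : Real.exp (-((1 + ‖x‖ ^ 2) * t)) = Real.exp (-t) * Real.exp (-(t * ‖x‖ ^ 2)) := by
        rw [← Real.exp_add]
        congr 1
        ring
      rw [this]
      ring
    rw [h5, h4, Real.rpow_neg hb.le, one_div, Real.inv_rpow hb.le]
    ring

theorem cauchy_poincare {a : ℝ} (ha : 0 < a) {f : E → ℝ} (hf : ContDiff ℝ 1 f)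
    (hc : HasCompactSupport f) (h0 : ∀ t : ℝ, 0 < t → ∫ x, Real.exp (-(t * ‖x‖ ^ 2)) * f x = 0) :
    2 * a * ∫ x, (1 + ‖x‖ ^ 2) ^ (-a - 1) * (f x) ^ 2
      ≤ ∫ x, (1 + ‖x‖ ^ 2) ^ (-a) * ‖fderiv ℝ f x‖ ^ 2 := by
  have hf2 : Continuous fun x => (f x) ^ 2 := hf.continuous.pow 2
  have hf2c : HasCompactSupport fun x => (f x) ^ 2 := by
    have : (fun x => (f x) ^ 2) = fun x => f x * f x := by funext x; ring
    rw [this]
    exact hc.mul_right
  have hd2 : Continuous fun x => ‖fderiv ℝ f x‖ ^ 2 := (hf.continuous_fderiv one_ne_zero).norm.pow 2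
  have hd2c : HasCompactSupport fun x => ‖fderiv ℝ f x‖ ^ 2 := by
    refine HasCompactSupport.mono' (f := fderiv ℝ f) (hc.fderiv ℝ) ?_
    intro x hx
    refine subset_tsupport _ ?_
    rw [Function.mem_support] at hx ⊢
    intro h0
    exact hx (by simp [h0])
  obtain ⟨i1, m1⟩ := mixture (s := a + 1) (by linarith) hf2 hf2c
  obtain ⟨i2, m2⟩ := mixture (s := a) ha hd2 hd2c
  have key : 2 * ∫ t in Ioi (0:ℝ), t ^ (a + 1 - 1) * Real.exp (-t) *
        ∫ x, Real.exp (-(t * ‖x‖ ^ 2)) * (f x) ^ 2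
      ≤ ∫ t in Ioi (0:ℝ), t ^ (a - 1) * Real.exp (-t) *
        ∫ x, Real.exp (-(t * ‖x‖ ^ 2)) * ‖fderiv ℝ f x‖ ^ 2 := by
    rw [← integral_const_mul]
    refine setIntegral_mono_on (i1.const_mul 2) i2 measurableSet_Ioi fun t ht => ?_
    have ht0 : (0:ℝ) < t := ht
    have h1 := gauss_poincare ht0 hf hc (h0 t ht0)
    have h2 : t ^ (a + 1 - 1) = t ^ (a - 1) * t := by
      rw [← Real.rpow_add_one ht0.ne']
      congr 1
      ring
    rw [h2]
    have h3 : 0 ≤ t ^ (a - 1) * Real.exp (-t) := by positivity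
    have h4 := mul_le_mul_of_nonneg_left h1 h3
    linarith
  rw [m1, m2, Real.Gamma_add_one ha.ne'] at key
  have hG := Real.Gamma_pos_of_pos ha
  have e : -(a + 1) = -a - 1 := by ring
  rw [e] at key
  have h5 : Real.Gamma a * (2 * a * ∫ x, (1 + ‖x‖ ^ 2) ^ (-a - 1) * (f x) ^ 2)
      ≤ Real.Gamma a * ∫ x, (1 + ‖x‖ ^ 2) ^ (-a) * ‖fderiv ℝ f x‖ ^ 2 := by
    linarith
  exact le_of_mul_le_mul_left h5 hG

end Gen

end Pool.Agent.U588.WH
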