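import Pool.Agent.U588.WH.Basic

set_option autoImplicit false

open MeasureTheory Set Filter Topology
open scoped ContDiff

namespace Pool.Agent.U588.WH

variable {n : ℕ}

theorem integrable_wt {s : ℝ} (hs : 2 * s < -(n : ℝ)) :
    Integrable (fun x : V n => (1 + ‖x‖ ^ 2) ^ s) := by
  have h := integrable_rpow_neg_one_add_norm_sq (E := V n) (μ := volume) (r := -(2 * s)) (by
    simp only [finrank_euclideanSpace, Fintype.card_fin]
    linarith)
  have e : -(-(2 * s)) / 2 = s := by ring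
  simpa only [e] using h

/-- `J s = ∫ (1+|x|^2)^s`. -/
noncomputable def J (n : ℕ) (s : ℝ) : ℝ := ∫ x : V n, (1 + ‖x‖ ^ 2) ^ s

theorem J_pos {s : ℝ} (hs : 2 * s < -(n : ℝ)) : 0 < J n s := by
  unfold J
  rw [integral_pos_iff_support_of_nonneg (fun x => (wt_pos s x).le) (integrable_wt hs)]
  have : Function.support (fun x : V n => (1 + ‖x‖ ^ 2) ^ s) = univ := by
    ext x
    simp [(wt_pos s x).ne']
  rw [this]
  exact isOpen_univ.measure_pos _ univ_nonempty

theorem wt_le_wt {s t : ℝ} (h : s ≤ t) (x : V n) : (1 + ‖x‖ ^ 2) ^ s ≤ (1 + ‖x‖ ^ 2) ^ t :=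
  Real.rpow_le_rpow_of_exponent_le (by nlinarith [sq_nonneg ‖x‖]) h

theorem integral_sq_wt {s : ℝ} (hs : 2 * s < -(n : ℝ)) :
    ∫ x : V n, ‖x‖ ^ 2 * (1 + ‖x‖ ^ 2) ^ (s - 1) = J n s - J n (s - 1) := by
  unfold J
  rw [← integral_sub (integrable_wt hs) (integrable_wt (by linarith))]
  refine integral_congr_ae (Eventually.of_forall fun x => ?_)
  simp only
  rw [wt_split s]
  ring

theorem J_rec (hn : 1 ≤ n) {s : ℝ} (hs : 2 * s < -(n : ℝ)) :
    ((n : ℝ) + 2 * s) * J n s = 2 * s * J n (s - 1) := by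
  have hint1 := integrable_wt hs
  have hint2 : Integrable (fun x : V n => ‖x‖ ^ 2 * (1 + ‖x‖ ^ 2) ^ (s - 1)) := by
    refine (hint1.sub (integrable_wt (s := s - 1) (by linarith))).congr
      (Eventually.of_forall fun x => ?_)
    simp only [Pi.sub_apply]
    rw [wt_split s]
    ring
  obtain ⟨m, rfl⟩ : ∃ m, n = m + 1 := ⟨n - 1, by omega⟩
  have hnt : Nontrivial (V (m + 1)) := by
    have : (0:ℕ) < Module.finrank ℝ (V (m + 1)) := by simp
    exact Module.nontrivial_of_finrank_pos this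
  set f : ℝ → ℝ := fun r => ((m + 1 : ℕ) : ℝ) * (1 + r ^ 2) ^ s
    + 2 * s * (r ^ 2 * (1 + r ^ 2) ^ (s - 1)) with hf
  have hfi : Integrable (fun x : V (m + 1) => f ‖x‖) :=
    (hint1.const_mul _).add (hint2.const_mul _)
  have h1 := integral_fun_norm_addHaar (volume : Measure (V (m + 1))) f
  have h2 := (integrable_fun_norm_addHaar (volume : Measure (V (m + 1))) (f := f)).1 hfi
  have hdim : Module.finrank ℝ (V (m + 1)) = m + 1 := by simp
  rw [hdim] at h1 h2
  simp only [Nat.add_sub_cancel, smul_eq_mul] at h1 h2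
  -- the antiderivative
  set G : ℝ → ℝ := fun r => r ^ (m + 1) * (1 + r ^ 2) ^ s with hG
  have hGd : ∀ r : ℝ, HasDerivAt G (r ^ m * f r) r := by
    intro r
    have hb : (0:ℝ) < 1 + r ^ 2 := by positivity
    have d1 : HasDerivAt (fun r : ℝ => 1 + r ^ 2) (2 * r) r := by
      simpa using (hasDerivAt_pow 2 r).const_add 1
    have d2 : HasDerivAt (fun r : ℝ => (1 + r ^ 2) ^ s) (2 * r * s * (1 + r ^ 2) ^ (s - 1)) r :=
      d1.rpow_const (Or.inl hb.ne')
    have d3 := (hasDerivAt_pow (m + 1) r).mul d2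
    convert! d3 using 1
    simp only [hf, Nat.add_sub_cancel]
    push_cast
    ring
  have hGt : Tendsto G atTop (𝓝 0) := by
    have hneg : ((m + 1 : ℕ) : ℝ) + 2 * s < 0 := by linarith
    have h3 : Tendsto (fun r : ℝ => r ^ (((m + 1 : ℕ) : ℝ) + 2 * s)) atTop (𝓝 0) := by
      have := tendsto_rpow_neg_atTop (y := -(((m + 1 : ℕ) : ℝ) + 2 * s)) (by linarith)
      simpa using this
    refine squeeze_zero' ?_ ?_ h3
    · filter_upwards [eventually_ge_atTop 0] with r hr
      simp only [hG]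
      positivity
    · filter_upwards [eventually_gt_atTop 0] with r hr
      simp only [hG]
      rw [Real.rpow_add hr, Real.rpow_natCast]
      refine mul_le_mul_of_nonneg_left ?_ (by positivity)
      have hs0 : s ≤ 0 := by
        have : (0:ℝ) ≤ ((m + 1 : ℕ) : ℝ) := by positivity
        linarith
      have e : r ^ (2 * s) = (r ^ 2) ^ s := by
        rw [Real.rpow_mul hr.le]
        norm_num
      rw [e]
      exact Real.rpow_le_rpow_of_nonpos (by positivity) (by linarith) hs0
  have h4 := integral_Ioi_of_hasDerivAt_of_tendsto' (a := 0) (fun r _ => hGd r) h2 hGt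
  have hG0 : G 0 = 0 := by simp [hG]
  rw [hG0, sub_zero] at h4
  rw [h4] at h1
  simp only [mul_zero, smul_zero] at h1
  have h5 : ∫ x : V (m + 1), f ‖x‖ = ((m + 1 : ℕ) : ℝ) * J (m + 1) s
      + 2 * s * (J (m + 1) s - J (m + 1) (s - 1)) := by
    rw [← integral_sq_wt hs, J, ← integral_const_mul, ← integral_const_mul,
      ← integral_add (hint1.const_mul _) (hint2.const_mul _)]
  rw [h5] at h1
  linarith

end Pool.Agent.U588.WH
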