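import Mathlib

/-!
# The one-dimensional (radial) inequality
-/

set_option autoImplicit false

open MeasureTheory Set Filter Topology

namespace Pool.Agent.U588.WH

/-- `p r = r^N (1+r^2)^α` -/
noncomputable def pp (N : ℕ) (α r : ℝ) : ℝ := r ^ N * (1 + r ^ 2) ^ α

/-- `m r = r^N (1+r^2)^(α-1)` -/
noncomputable def mm (N : ℕ) (α r : ℝ) : ℝ := r ^ N * (1 + r ^ 2) ^ (α - 1)

/-- the numerator of `q = p f'/f` -/
noncomputable def AA (N : ℕ) (α σ c r : ℝ) : ℝ :=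
  2 * r ^ (N + 1) * (1 + r ^ 2) ^ (α - 1) * (σ * (r ^ 2 - c) + (1 + r ^ 2))

theorem cont_rp (s : ℝ) : Continuous fun r : ℝ => (1 + r ^ 2) ^ s := by
  refine Continuous.rpow_const (by fun_prop) fun r => Or.inl ?_
  positivity

theorem cont_pp (N : ℕ) (α : ℝ) : Continuous (pp N α) := (continuous_pow N).mul (cont_rp α)

theorem cont_mm (N : ℕ) (α : ℝ) : Continuous (mm N α) := (continuous_pow N).mul (cont_rp (α - 1))

theorem cont_AA (N : ℕ) (α σ c : ℝ) : Continuous (AA N α σ c) := by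
  unfold AA
  have := cont_rp (α - 1)
  fun_prop

/-- The condition on `(σ, c, Λ)` -/
def Ric (N : ℕ) (α σ c Λ : ℝ) : Prop :=
  ∀ y : ℝ, 0 ≤ y → 2 * ((N : ℝ) + 1) * (1 + y) * (σ * (y - c) + (1 + y)) * (y - c)
    + 4 * (α - 1) * y * (σ * (y - c) + (1 + y)) * (y - c) - 4 * y * (1 + y) * (1 + c)
    + 4 * y * (σ * (y - c) + (1 + y)) ^ 2 + Λ * (1 + y) * (y - c) ^ 2 ≤ 0

theorem ric1 (N : ℕ) (α : ℝ) (h : (N : ℝ) + 1 + 2 * α < 0) :
    Ric N α 0 (-((N : ℝ) + 1) / ((N : ℝ) + 1 + 2 * α)) (-4 * α - 2 * ((N : ℝ) + 1)) := by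
  intro y hy
  have h0 : (N : ℝ) + 1 + 2 * α ≠ 0 := h.ne
  set c := -((N : ℝ) + 1) / ((N : ℝ) + 1 + 2 * α) with hc
  have hc2 : ((N : ℝ) + 1 + 2 * α) * c = -((N : ℝ) + 1) := by
    rw [hc]
    field_simp
  have hN : (N : ℝ) = -1 - 2 * α * c / (1 + c) := by
    have h1 : ((N : ℝ) + 1) * (1 + c) = -(2 * α * c) := by linarith
    have h2 : 1 + c ≠ 0 := by
      intro h3
      have h4 : c = -1 := by linarith
      rw [h4] at hc2
      have h5 : α = 0 := by linarith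
      rw [h5] at h
      have : (0:ℝ) ≤ N := by positivity
      linarith
    field_simp
    linarith
  have key : ∀ M : ℝ, (M + 2 * α) * c = -M →
      2 * M * (1 + y) * (0 * (y - c) + (1 + y)) * (y - c)
    + 4 * (α - 1) * y * (0 * (y - c) + (1 + y)) * (y - c) - 4 * y * (1 + y) * (1 + c)
    + 4 * y * (0 * (y - c) + (1 + y)) ^ 2 + (-4 * α - 2 * M) * (1 + y) * (y - c) ^ 2 = 0 := by
    intro M hM
    have : 2 * M * (1 + y) * (0 * (y - c) + (1 + y)) * (y - c)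
    + 4 * (α - 1) * y * (0 * (y - c) + (1 + y)) * (y - c) - 4 * y * (1 + y) * (1 + c)
    + 4 * y * (0 * (y - c) + (1 + y)) ^ 2 + (-4 * α - 2 * M) * (1 + y) * (y - c) ^ 2
      = (1 + y) * (y - c) * 2 * (M + (M + 2 * α) * c) := by ring
    rw [this, hM]
    ring
  exact (key _ hc2).le

theorem ric2 (N : ℕ) (α : ℝ) (h1 : -((N : ℝ) + 1 + 2) / 2 ≤ α)
    (h2 : α < -((N : ℝ) + 1 - 2) / 2) :
    Ric N α (-((N : ℝ) + 1 + 2 * α - 2) / 4 - 1) (((N : ℝ) + 1) / 2)
      (((N : ℝ) + 1 + 2 * α - 2) ^ 2 / 4) := by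
  intro y hy
  have hN : (0:ℝ) ≤ N := by positivity
  set k : ℝ := -((N : ℝ) + 1 + 2 * α - 2) / 2 with hk
  have hk0 : 0 < k := by rw [hk]; linarith
  have hk2 : k ≤ 2 := by rw [hk]; linarith
  have hα : α = 1 - k - ((N : ℝ) + 1) / 2 := by rw [hk]; ring
  have e1 : -((N : ℝ) + 1 + 2 * α - 2) / 4 - 1 = k / 2 - 1 := by rw [hk]; ring
  have e2 : ((N : ℝ) + 1 + 2 * α - 2) ^ 2 / 4 = k ^ 2 := by rw [hk]; ring
  rw [e1, e2, hα]
  generalize (N : ℝ) = M at *
  have key : 2 * (M + 1) * (1 + y) * ((k / 2 - 1) * (y - (M + 1) / 2) + (1 + y)) *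
      (y - (M + 1) / 2)
    + 4 * (1 - k - (M + 1) / 2 - 1) * y * ((k / 2 - 1) * (y - (M + 1) / 2) + (1 + y)) *
      (y - (M + 1) / 2) - 4 * y * (1 + y) * (1 + (M + 1) / 2)
    + 4 * y * ((k / 2 - 1) * (y - (M + 1) / 2) + (1 + y)) ^ 2
    + k ^ 2 * (1 + y) * (y - (M + 1) / 2) ^ 2
      = -((2 - k) * (M + 1 + 2 + k)) * (y - (M + 1) / 2) ^ 2 := by
    ring
  rw [key]
  have h3 : 0 ≤ (2 - k) * (M + 1 + 2 + k) := mul_nonneg (by linarith) (by linarith)
  nlinarith [mul_nonneg h3 (sq_nonneg (y - (M + 1) / 2))]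

/-- the derivative of `q` -/
theorem q_deriv (N : ℕ) (α σ c r : ℝ) (hr : r ^ 2 ≠ c) :
    HasDerivAt (fun r => AA N α σ c r / (r ^ 2 - c))
      (r ^ N * (1 + r ^ 2) ^ (α - 1 - 1) *
        (2 * ((N : ℝ) + 1) * (1 + r ^ 2) * ((σ * (r ^ 2 - c) + (1 + r ^ 2)) / (r ^ 2 - c))
        + 4 * (α - 1) * r ^ 2 * ((σ * (r ^ 2 - c) + (1 + r ^ 2)) / (r ^ 2 - c))
        - 4 * r ^ 2 * (1 + r ^ 2) * (1 + c) / (r ^ 2 - c) ^ 2)) r := by
  have hb : (0:ℝ) < 1 + r ^ 2 := by positivity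
  have hD : r ^ 2 - c ≠ 0 := sub_ne_zero.2 hr
  have d0 : HasDerivAt (fun r : ℝ => r ^ 2) (2 * r) r := by simpa using hasDerivAt_pow 2 r
  have d1 : HasDerivAt (fun r : ℝ => 1 + r ^ 2) (2 * r) r := d0.const_add 1
  have d2 : HasDerivAt (fun r : ℝ => (1 + r ^ 2) ^ (α - 1))
      (2 * r * (α - 1) * (1 + r ^ 2) ^ (α - 1 - 1)) r := d1.rpow_const (Or.inl hb.ne')
  have d3 : HasDerivAt (fun r : ℝ => 2 * r ^ (N + 1)) (2 * (((N + 1 : ℕ) : ℝ) * r ^ N)) r := by
    simpa using (hasDerivAt_pow (N + 1) r).const_mul 2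
  have d4 : HasDerivAt (fun r : ℝ => σ * (r ^ 2 - c) + (1 + r ^ 2)) (σ * (2 * r) + 2 * r) r :=
    ((d0.sub_const c).const_mul σ).add d1
  have d5 := ((d3.mul d2).mul d4).div (d0.sub_const c) hD
  have e : (1 + r ^ 2) ^ (α - 1) = (1 + r ^ 2) ^ (α - 1 - 1) * (1 + r ^ 2) := by
    rw [← Real.rpow_add_one hb.ne']
    congr 1
    ring
  unfold AA
  convert! d5 using 1
  rw [e]
  simp only [Pi.mul_apply]
  rw [e]
  push_cast
  field_simp
  ring

/-- the basic inequality, before centring -/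
theorem radial_core (N : ℕ) (α σ c Λ : ℝ) (hc : 0 < c) (hσ : -1 ≤ σ) (hR : Ric N α σ c Λ)
    (φ : ℝ → ℝ) (hφ : ContDiff ℝ 1 φ) (R : ℝ) (hcR : √c ≤ R) :
    0 ≤ ∫ r in (0:ℝ)..R, (pp N α r * (deriv φ r) ^ 2 - Λ * (mm N α r * (φ r - φ (√c)) ^ 2)) := by
  set r0 := √c with hr0
  have hr0p : 0 < r0 := Real.sqrt_pos.2 hc
  have hr0c : r0 ^ 2 = c := Real.sq_sqrt hc.le
  set g : ℝ → ℝ := fun r => φ r - φ r0 with hg
  have hgc : Continuous g := hφ.continuous.sub continuous_const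
  have hgd : ∀ r, HasDerivAt g (deriv φ r) r := fun r =>
    ((hφ.differentiable one_ne_zero r).hasDerivAt).sub_const _
  set F : ℝ → ℝ := fun r => pp N α r * (deriv φ r) ^ 2 - Λ * (mm N α r * (φ r - φ r0) ^ 2) with hF
  have hFc : Continuous F := by
    have h1 : Continuous (deriv φ) := hφ.continuous_deriv le_rfl
    exact ((cont_pp N α).mul (h1.pow 2)).sub (continuous_const.mul
      ((cont_mm N α).mul ((hφ.continuous.sub continuous_const).pow 2)))
  -- the function H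
  set G : ℝ → ℝ := fun r => g r ^ 2 / (r ^ 2 - c) with hG
  set H : ℝ → ℝ := fun r => AA N α σ c r * G r with hH
  have hne : ∀ r, 0 ≤ r → r ≠ r0 → r ^ 2 - c ≠ 0 := by
    intro r hr hrr h0
    apply hrr
    have h1 : r ^ 2 = r0 ^ 2 := by rw [hr0c]; linarith
    exact (sq_eq_sq₀ hr hr0p.le).1 h1
  have hG0 : G r0 = 0 := by
    simp only [hG]
    rw [hr0c]
    simp
  have hGcont0 : ContinuousAt G r0 := by
    rw [ContinuousAt, hG0]
    obtain ⟨K, hK⟩ := ((hgd r0).isBigO_sub).bound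
    have hK0 : ∀ᶠ r in 𝓝 r0, |g r| ≤ K * |r - r0| := by
      filter_upwards [hK] with r hr
      have h1 : g r0 = 0 := by simp [hg]
      rw [h1, sub_zero] at hr
      simpa using hr
    have hpos : ∀ᶠ r in 𝓝 r0, 0 < r := lt_mem_nhds hr0p
    have hlim : Tendsto (fun r => K ^ 2 / r0 * |r - r0|) (𝓝 r0) (𝓝 0) := by
      have : Continuous fun r => K ^ 2 / r0 * |r - r0| := by fun_prop
      have h2 := this.tendsto r0
      simpa using h2
    refine squeeze_zero_norm' ?_ hlim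
    filter_upwards [hK0, hpos] with r h1 h2
    by_cases hrr : r = r0
    · rw [hrr, hG0]
      simp
    have h3 : 0 < |r - r0| := abs_pos.2 (sub_ne_zero.2 hrr)
    have h4 : r ^ 2 - c = (r - r0) * (r + r0) := by rw [← hr0c]; ring
    simp only [hG]
    rw [Real.norm_eq_abs, abs_div, abs_of_nonneg (sq_nonneg (g r)), h4, abs_mul,
      abs_of_pos (by linarith : 0 < r + r0), div_le_iff₀ (by positivity)]
    have h5 : g r ^ 2 ≤ (K * |r - r0|) ^ 2 := by
      rw [← sq_abs (g r)]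
      exact pow_le_pow_left₀ (abs_nonneg _) h1 2
    have h6 : K ^ 2 / r0 * |r - r0| * (|r - r0| * (r + r0))
        = (K * |r - r0|) ^ 2 * ((r + r0) / r0) := by
      field_simp
    rw [h6]
    have h7 : 1 ≤ (r + r0) / r0 := by
      rw [le_div_iff₀ hr0p]
      linarith
    nlinarith [sq_nonneg (K * |r - r0|)]
  have hGcont : ∀ r, 0 ≤ r → ContinuousAt G r := by
    intro r hr
    by_cases hrr : r = r0
    · rw [hrr]; exact hGcont0
    · exact ((hgc.pow 2).continuousAt).div (by fun_prop) (hne r hr hrr)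
  have hHcont : ∀ r, 0 ≤ r → ContinuousAt H r := fun r hr =>
    (cont_AA N α σ c).continuousAt.mul (hGcont r hr)
  have hH0 : H 0 = 0 := by simp [hH, AA]
  have hHr0 : H r0 = 0 := by simp only [hH, hG0, mul_zero]
  -- the derivative inequality
  have hder : ∀ r, 0 < r → r ≠ r0 → ∃ H', HasDerivAt H H' r ∧ H' ≤ F r := by
    intro r hr hrr
    have hD := hne r hr.le hrr
    have hq := q_deriv N α σ c r (fun h => hD (sub_eq_zero.2 h))
    have h1 := hq.mul ((hgd r).pow 2)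
    have h2 : (fun r => AA N α σ c r / (r ^ 2 - c)) * (g ^ 2) = H := by
      funext r
      simp only [Pi.mul_apply, Pi.pow_apply, hH, hG]
      ring
    rw [h2] at h1
    refine ⟨_, h1, ?_⟩
    have hb : (0:ℝ) < 1 + r ^ 2 := by positivity
    have e1 : (1 + r ^ 2) ^ (α - 1) = (1 + r ^ 2) ^ (α - 1 - 1) * (1 + r ^ 2) := by
      rw [← Real.rpow_add_one hb.ne']
      congr 1
      ring
    have e2 : (1 + r ^ 2) ^ α = (1 + r ^ 2) ^ (α - 1 - 1) * (1 + r ^ 2) ^ 2 := by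
      have : (1 + r ^ 2) ^ α = (1 + r ^ 2) ^ (α - 1) * (1 + r ^ 2) := by
        rw [← Real.rpow_add_one hb.ne']
        congr 1
        ring
      rw [this, e1]
      ring
    have hW : 0 < (1 + r ^ 2) ^ (α - 1 - 1) := Real.rpow_pos_of_pos hb _
    have hrN : 0 < r ^ N := pow_pos hr N
    have hric := hR (r ^ 2) (sq_nonneg r)
    simp only [hF, pp, mm, AA, hg] at *
    rw [e1, e2]
    simp only [Nat.cast_ofNat, Pi.pow_apply]
    generalize (1 + r ^ 2) ^ (α - 1 - 1) = W at *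
    generalize deriv φ r = d at *
    generalize φ r - φ r0 = v at *
    set D := r ^ 2 - c with hDdef
    set S := σ * D + (1 + r ^ 2) with hS
    -- reduce to the polynomial inequality
    have hkey : r ^ N * W * (2 * ((N : ℝ) + 1) * (1 + r ^ 2) * (S / D)
        + 4 * (α - 1) * r ^ 2 * (S / D) - 4 * r ^ 2 * (1 + r ^ 2) * (1 + c) / D ^ 2) * v ^ 2
        ≤ -(Λ * (r ^ N * (W * (1 + r ^ 2)) * v ^ 2)) - 4 * r ^ 2 * (S / D) ^ 2 * r ^ N * W * v ^ 2 := by
      have h3 : (2 * ((N : ℝ) + 1) * (1 + r ^ 2) * (S / D)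
        + 4 * (α - 1) * r ^ 2 * (S / D) - 4 * r ^ 2 * (1 + r ^ 2) * (1 + c) / D ^ 2)
        + Λ * (1 + r ^ 2) + 4 * r ^ 2 * (S / D) ^ 2 ≤ 0 := by
        have h4 : (2 * ((N : ℝ) + 1) * (1 + r ^ 2) * (S / D)
        + 4 * (α - 1) * r ^ 2 * (S / D) - 4 * r ^ 2 * (1 + r ^ 2) * (1 + c) / D ^ 2)
        + Λ * (1 + r ^ 2) + 4 * r ^ 2 * (S / D) ^ 2
          = (2 * ((N : ℝ) + 1) * (1 + r ^ 2) * S * D
    + 4 * (α - 1) * r ^ 2 * S * D - 4 * r ^ 2 * (1 + r ^ 2) * (1 + c)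
    + 4 * r ^ 2 * S ^ 2 + Λ * (1 + r ^ 2) * D ^ 2) / D ^ 2 := by
          field_simp
          ring
        rw [h4]
        exact div_nonpos_of_nonpos_of_nonneg hric (sq_nonneg _)
      have h5 := mul_nonpos_of_nonneg_of_nonpos
        (mul_nonneg (mul_nonneg hrN.le hW.le) (sq_nonneg v)) h3
      nlinarith
    have hsq : 0 ≤ r ^ N * W * ((1 + r ^ 2) * d - 2 * r * (S / D) * v) ^ 2 :=
      mul_nonneg (mul_nonneg hrN.le hW.le) (sq_nonneg _)
    have hcross : 2 * r ^ (N + 1) * (W * (1 + r ^ 2)) * S / D * (2 * v ^ (2 - 1) * d)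
        = r ^ N * W * (2 * ((1 + r ^ 2) * d) * (2 * r * (S / D) * v)) := by
      rw [pow_succ]
      simp only [Nat.add_one_sub_one, pow_one]
      field_simp
    rw [hcross]
    have hexp : r ^ N * W * ((1 + r ^ 2) * d - 2 * r * (S / D) * v) ^ 2
        = r ^ N * (W * (1 + r ^ 2) ^ 2) * d ^ 2
          - r ^ N * W * (2 * ((1 + r ^ 2) * d) * (2 * r * (S / D) * v))
          + 4 * r ^ 2 * (S / D) ^ 2 * r ^ N * W * v ^ 2 := by ring
    rw [hexp] at hsq
    linarith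
  -- integrate
  have hint1 : 0 ≤ ∫ r in (0:ℝ)..r0, F r := by
    choose! H' hH' using hder
    have := intervalIntegral.sub_le_integral_of_hasDeriv_right_of_le (a := 0) (b := r0) (g := H)
      (g' := H') (φ := F) hr0p.le (fun r hr => (hHcont r hr.1).continuousWithinAt)
      (fun r hr => ((hH' r hr.1 hr.2.ne).1).hasDerivWithinAt)
      (hFc.integrableOn_Icc) (fun r hr => (hH' r hr.1 hr.2.ne).2)
    rw [hHr0, hH0, sub_zero] at this
    exact this
  have hint2 : 0 ≤ ∫ r in r0..R, F r := by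
    choose! H' hH' using hder
    have := intervalIntegral.sub_le_integral_of_hasDeriv_right_of_le (a := r0) (b := R) (g := H)
      (g' := H') (φ := F) hcR (fun r hr => (hHcont r (hr0p.le.trans hr.1)).continuousWithinAt)
      (fun r hr => ((hH' r (hr0p.trans hr.1) hr.1.ne').1).hasDerivWithinAt)
      (hFc.integrableOn_Icc) (fun r hr => (hH' r (hr0p.trans hr.1) hr.1.ne').2)
    rw [hHr0, sub_zero] at this
    refine le_trans ?_ this
    rcases hcR.eq_or_lt with h | h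
    · rw [← h, hHr0]
    · simp only [hH, hG]
      have hRc : 0 < R ^ 2 - c := by
        rw [← hr0c]
        nlinarith
      have hRp : 0 < R := hr0p.trans h
      have hA : 0 ≤ AA N α σ c R := by
        unfold AA
        have : 0 ≤ σ * (R ^ 2 - c) + (1 + R ^ 2) := by nlinarith
        positivity
      positivity
  have := intervalIntegral.integral_add_adjacent_intervals (hFc.intervalIntegrable 0 r0)
    (hFc.intervalIntegrable (μ := volume) r0 R)
  rw [← this]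
  exact add_nonneg hint1 hint2

theorem radial_mean (N : ℕ) (α σ c Λ : ℝ) (hc : 0 < c) (hσ : -1 ≤ σ) (hΛ : 0 ≤ Λ)
    (hR : Ric N α σ c Λ) (φ : ℝ → ℝ) (hφ : ContDiff ℝ 1 φ) (R : ℝ) (hcR : √c ≤ R)
    (h0 : ∫ r in (0:ℝ)..R, mm N α r * φ r = 0) :
    Λ * ∫ r in (0:ℝ)..R, mm N α r * (φ r) ^ 2 ≤ ∫ r in (0:ℝ)..R, pp N α r * (deriv φ r) ^ 2 := by
  have h1 := radial_core N α σ c Λ hc hσ hR φ hφ R hcR
  set κ := φ (√c)
  have hR0 : 0 ≤ R := (Real.sqrt_nonneg c).trans hcR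
  have c1 : Continuous fun r => pp N α r * (deriv φ r) ^ 2 :=
    (cont_pp N α).mul ((hφ.continuous_deriv le_rfl).pow 2)
  have c2 : Continuous fun r => mm N α r * (φ r) ^ 2 := (cont_mm N α).mul (hφ.continuous.pow 2)
  have c3 : Continuous fun r => mm N α r * φ r := (cont_mm N α).mul hφ.continuous
  have c4 : Continuous fun r => mm N α r * (φ r - κ) ^ 2 :=
    (cont_mm N α).mul ((hφ.continuous.sub continuous_const).pow 2)
  have c5 : Continuous fun r => Λ * (mm N α r * (φ r - κ) ^ 2) := continuous_const.mul c4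
  have c6 : Continuous fun r => 2 * κ * (mm N α r * φ r) := continuous_const.mul c3
  have c7 : Continuous fun r => κ ^ 2 * mm N α r := continuous_const.mul (cont_mm N α)
  have c8 : Continuous fun r => mm N α r * (φ r) ^ 2 - 2 * κ * (mm N α r * φ r) := c2.sub c6
  rw [intervalIntegral.integral_sub (c1.intervalIntegrable _ _)
    (c5.intervalIntegrable _ _), intervalIntegral.integral_const_mul] at h1
  have h2 : ∫ r in (0:ℝ)..R, mm N α r * (φ r - κ) ^ 2
      = (∫ r in (0:ℝ)..R, mm N α r * (φ r) ^ 2) + κ ^ 2 * ∫ r in (0:ℝ)..R, mm N α r := by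
    have e : ∀ r, mm N α r * (φ r - κ) ^ 2
        = (mm N α r * (φ r) ^ 2 - 2 * κ * (mm N α r * φ r)) + κ ^ 2 * mm N α r := by
      intro r
      ring
    simp only [e]
    rw [intervalIntegral.integral_add (c8.intervalIntegrable _ _) (c7.intervalIntegrable _ _),
      intervalIntegral.integral_sub (c2.intervalIntegrable _ _) (c6.intervalIntegrable _ _),
      intervalIntegral.integral_const_mul, intervalIntegral.integral_const_mul, h0]
    ring
  have h3 : 0 ≤ ∫ r in (0:ℝ)..R, mm N α r := by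
    refine intervalIntegral.integral_nonneg hR0 fun r hr => ?_
    unfold mm
    have := hr.1
    positivity
  rw [h2] at h1
  nlinarith [mul_nonneg hΛ (mul_nonneg (sq_nonneg κ) h3)]

end Pool.Agent.U588.WH
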