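import Pool.Agent.U588.WH.Upper
import Pool.Agent.U588.WH.Radial
import Pool.Agent.U588.WH.Gauss
import Pool.Agent.U588.WH.Decomp

/-!
# The lower bound for functions of weighted mean zero
-/

set_option autoImplicit false

open MeasureTheory Set Filter Topology
open Pool.Agent.Helper28
open scoped ContDiff

namespace Pool.Agent.U588.WH

variable {n : ℕ}

theorem ioi_eq {f : ℝ → ℝ} {R : ℝ} (hR : 0 ≤ R) (hf : ∀ r, R < r → f r = 0) :
    ∫ r in Ioi (0:ℝ), f r = ∫ r in (0:ℝ)..R, f r := by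
  rw [intervalIntegral.integral_of_le hR]
  refine setIntegral_eq_of_subset_of_forall_sdiff_eq_zero measurableSet_Ioi Ioc_subset_Ioi_self ?_
  intro r hr
  refine hf r ?_
  by_contra h
  exact hr.2 ⟨hr.1, not_lt.1 h⟩

/-- the radial part -/
theorem radial_part {N : ℕ} {α σ c Λ : ℝ} (hc0 : 0 < c) (hσ : -1 ≤ σ) (hΛ : 0 ≤ Λ)
    (hRic : Ric N α σ c Λ) (h : V (N + 1) → ℝ) (hh : ContDiff ℝ 1 h)
    (hrad : ∀ x y, ‖x‖ = ‖y‖ → h x = h y) {R : ℝ} (hR : ∀ x, R < ‖x‖ → h x = 0)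
    (h0 : ∫ x, (1 + ‖x‖ ^ 2) ^ (α - 1) * h x = 0) :
    Λ * ∫ x, (1 + ‖x‖ ^ 2) ^ (α - 1) * (h x) ^ 2
      ≤ ∫ x, (1 + ‖x‖ ^ 2) ^ α * ‖fderiv ℝ h x‖ ^ 2 := by
  have hdim : Module.finrank ℝ (V (N + 1)) = N + 1 := by simp
  have hnt : Nontrivial (V (N + 1)) := by
    have : (0:ℕ) < Module.finrank ℝ (V (N + 1)) := by simp
    exact Module.nontrivial_of_finrank_pos this
  set e : V (N + 1) := EuclideanSpace.single 0 1 with he
  have hen : ‖e‖ = 1 := by simp [he]
  set φ : ℝ → ℝ := fun r => h (r • e) with hφ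
  have hφc : ContDiff ℝ 1 φ := hh.comp (contDiff_id.smul contDiff_const)
  have hφo : ∀ (ξ : V (N + 1)), ‖ξ‖ = 1 → ∀ r : ℝ, φ r = h (r • ξ) := by
    intro ξ ho r
    refine hrad _ _ ?_
    rw [norm_smul, norm_smul, hen, ho]
  have hφx : ∀ x, h x = φ ‖x‖ := by
    intro x
    refine hrad _ _ ?_
    rw [norm_smul, hen, norm_norm, mul_one]
  have hdφ : ∀ (ξ : V (N + 1)), ‖ξ‖ = 1 → ∀ r : ℝ, deriv φ r = fderiv ℝ h (r • ξ) ξ := by
    intro ξ ho r
    have h1 : HasFDerivAt h (fderiv ℝ h (r • ξ)) (r • ξ) :=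
      (hh.differentiable one_ne_zero _).hasFDerivAt
    have h2 : HasDerivAt (fun r : ℝ => r • ξ) ξ r := by
      simpa using (hasDerivAt_id r).smul_const ξ
    have h3 := h1.comp_hasDerivAt r h2
    have h4 : (h ∘ fun r : ℝ => r • ξ) = φ := by
      funext r
      exact (hφo ξ ho r).symm
    rw [h4] at h3
    exact h3.deriv
  have hgrad : ∀ x, (deriv φ ‖x‖) ^ 2 ≤ ‖fderiv ℝ h x‖ ^ 2 := by
    intro x
    obtain ⟨ξ, ho, hx⟩ : ∃ ξ : V (N + 1), ‖ξ‖ = 1 ∧ ‖x‖ • ξ = x := by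
      by_cases hx : x = 0
      · exact ⟨e, hen, by rw [hx]; simp⟩
      · have hx0 : ‖x‖ ≠ 0 := norm_ne_zero_iff.2 hx
        refine ⟨‖x‖⁻¹ • x, ?_, ?_⟩
        · rw [norm_smul, norm_inv, norm_norm, inv_mul_cancel₀ hx0]
        · rw [smul_smul, mul_inv_cancel₀ hx0, one_smul]
    rw [hdφ ξ ho, hx]
    have h1 := (fderiv ℝ h x).le_opNorm ξ
    rw [ho, mul_one] at h1
    rw [← sq_abs]
    exact pow_le_pow_left₀ (abs_nonneg _) h1 2
  -- enlarge the radius
  set R' := max (max R 0) (√c) with hR'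
  have hR'0 : 0 ≤ R' := (le_max_right R 0).trans (le_max_left _ _)
  have hRR' : R ≤ R' := (le_max_left R 0).trans (le_max_left _ _)
  have hφR : ∀ r, R' < r → φ r = 0 := by
    intro r hr
    refine hR _ ?_
    rw [norm_smul, hen, mul_one, Real.norm_eq_abs, abs_of_pos (lt_of_le_of_lt hR'0 hr)]
    exact lt_of_le_of_lt hRR' hr
  have hdφR : ∀ r, R' < r → deriv φ r = 0 := by
    intro r hr
    have h1 : φ =ᶠ[𝓝 r] fun _ => 0 := by
      filter_upwards [lt_mem_nhds hr] with s hs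
      exact hφR s hs
    rw [h1.deriv_eq]
    simp
  -- polar coordinates
  set K : ℝ := ((N + 1 : ℕ) : ℝ) * (volume : Measure (V (N + 1))).real (Metric.ball 0 1) with hK
  have hK0 : 0 < K := by
    have : 0 < (volume : Measure (V (N + 1))).real (Metric.ball 0 1) := by
      rw [Measure.real]
      exact ENNReal.toReal_pos (Metric.measure_ball_pos _ _ one_pos).ne' measure_ball_lt_top.ne
    positivity
  have hpolar : ∀ f : ℝ → ℝ, (∀ r, R' < r → f r = 0) →
      ∫ x : V (N + 1), f ‖x‖ = K * ∫ r in (0:ℝ)..R', r ^ N * f r := by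
    intro f hf
    have h1 := integral_fun_norm_addHaar (volume : Measure (V (N + 1))) f
    rw [hdim] at h1
    simp only [Nat.add_sub_cancel, smul_eq_mul, nsmul_eq_mul] at h1
    rw [h1, ioi_eq hR'0 (fun r hr => by rw [hf r hr, mul_zero]), hK, mul_assoc]
  have p0 : ∫ x : V (N + 1), (1 + ‖x‖ ^ 2) ^ (α - 1) * h x
      = K * ∫ r in (0:ℝ)..R', mm N α r * φ r := by
    have h1 := hpolar (fun r => (1 + r ^ 2) ^ (α - 1) * φ r) (fun r hr => by
      rw [hφR r hr, mul_zero])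
    have h2 : ∫ x : V (N + 1), (1 + ‖x‖ ^ 2) ^ (α - 1) * h x
        = ∫ x : V (N + 1), (1 + ‖x‖ ^ 2) ^ (α - 1) * φ ‖x‖ := by simp only [← hφx]
    rw [h2, h1]
    congr 1
    refine intervalIntegral.integral_congr fun r _ => ?_
    simp only [mm]
    ring
  have p1 : ∫ x : V (N + 1), (1 + ‖x‖ ^ 2) ^ (α - 1) * (h x) ^ 2
      = K * ∫ r in (0:ℝ)..R', mm N α r * (φ r) ^ 2 := by
    have h1 := hpolar (fun r => (1 + r ^ 2) ^ (α - 1) * (φ r) ^ 2) (fun r hr => by
      rw [hφR r hr]; simp)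
    have h2 : ∫ x : V (N + 1), (1 + ‖x‖ ^ 2) ^ (α - 1) * (h x) ^ 2
        = ∫ x : V (N + 1), (1 + ‖x‖ ^ 2) ^ (α - 1) * (φ ‖x‖) ^ 2 := by simp only [← hφx]
    rw [h2, h1]
    congr 1
    refine intervalIntegral.integral_congr fun r _ => ?_
    simp only [mm]
    ring
  have p2 : K * ∫ r in (0:ℝ)..R', pp N α r * (deriv φ r) ^ 2
      ≤ ∫ x : V (N + 1), (1 + ‖x‖ ^ 2) ^ α * ‖fderiv ℝ h x‖ ^ 2 := by
    have h1 := hpolar (fun r => (1 + r ^ 2) ^ α * (deriv φ r) ^ 2) (fun r hr => by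
      rw [hdφR r hr]; simp)
    have h2 : ∫ r in (0:ℝ)..R', pp N α r * (deriv φ r) ^ 2
        = ∫ r in (0:ℝ)..R', r ^ N * ((1 + r ^ 2) ^ α * (deriv φ r) ^ 2) := by
      refine intervalIntegral.integral_congr fun r _ => ?_
      simp only [pp]
      ring
    rw [h2, ← h1]
    have hdh : Continuous (fderiv ℝ h) := hh.continuous_fderiv one_ne_zero
    have hdhR : ∀ x, R < ‖x‖ → fderiv ℝ h x = 0 := by
      intro x hx
      have h1 : h =ᶠ[𝓝 x] fun _ => 0 := by
        have h2 : ∀ᶠ y in 𝓝 x, R < ‖y‖ := continuous_norm.continuousAt.eventually_const_lt hx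
        filter_upwards [h2] with y hy
        exact hR y hy
      rw [h1.fderiv_eq]
      simp
    refine integral_mono_of_nonneg (Eventually.of_forall fun x => ?_) ?_
      (Eventually.of_forall fun x => ?_)
    · have := wt_pos α x
      simp only [Pi.zero_apply]
      positivity
    · refine int_of_bound ((continuous_wt α).mul (hdh.norm.pow 2)) (R := R) fun x hx => ?_
      rw [hdhR x hx]
      simp
    · exact mul_le_mul_of_nonneg_left (hgrad x) (wt_pos α x).le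
  rw [p0] at h0
  have h0' : ∫ r in (0:ℝ)..R', mm N α r * φ r = 0 := by
    rcases mul_eq_zero.1 h0 with h | h
    · exact absurd h hK0.ne'
    · exact h
  have key := radial_mean N α σ c Λ hc0 hσ hΛ hRic φ hφc R' (le_max_right _ _) h0'
  rw [p1]
  refine le_trans ?_ p2
  have := mul_le_mul_of_nonneg_left key hK0.le
  linarith

theorem mean_lower {N : ℕ} {α σ c Λ : ℝ} (hα : α < 0) (hc0 : 0 < c) (hσ : -1 ≤ σ) (hΛ : 0 ≤ Λ)
    (hΛ2 : Λ ≤ -2 * α) (hRic : Ric N α σ c Λ) (u : V (N + 1) → ℝ) (hu : ContDiff ℝ 1 u)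
    (hc : HasCompactSupport u) (h0 : ∫ x, (1 + ‖x‖ ^ 2) ^ (α - 1) * u x = 0) :
    Λ * mass α u ≤ energy α u := by
  have hdim : Module.finrank ℝ (V (N + 1)) = N + 1 := by simp
  have hwi : ∀ (s : ℝ) (Q : unitary (V (N + 1) →L[ℝ] V (N + 1))) (x : V (N + 1)),
      (1 + ‖act Q x‖ ^ 2) ^ s = (1 + ‖x‖ ^ 2) ^ s := by
    intro s Q x
    rw [act_norm]
  obtain ⟨R, hR0, hR⟩ := supp_bound hc
  have hac := contDiff_avg hu hc
  have hm := mass_dec (w := fun x : V (N + 1) => (1 + ‖x‖ ^ 2) ^ (α - 1)) (continuous_wt _)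
    (hwi _) hu hc
  have he := energy_dec (w := fun x : V (N + 1) => (1 + ‖x‖ ^ 2) ^ α) (continuous_wt _)
    (hwi _) hu hc
  have hl := lin_avg (w := fun x : V (N + 1) => (1 + ‖x‖ ^ 2) ^ (α - 1)) (continuous_wt _)
    (hwi _) hu.continuous hc
  have hrad := radial_part hc0 hσ hΛ hRic (avg u) hac (avg_radial hdim u) (avg_supp hR)
    (hl.trans h0)
  have hv : ContDiff ℝ 1 fun x => u x - avg u x := hu.sub hac
  have hvc : HasCompactSupport fun x => u x - avg u x := hc.sub (compact_avg hc)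
  have hnr := cauchy_poincare (a := -α) (by linarith) hv hvc (by
    intro t ht
    have hg : Continuous fun x : V (N + 1) => Real.exp (-(t * ‖x‖ ^ 2)) := by fun_prop
    have h1 := lin_avg (w := fun x : V (N + 1) => Real.exp (-(t * ‖x‖ ^ 2))) hg
      (fun Q x => by rw [act_norm]) hu.continuous hc
    have i1 : Integrable fun x : V (N + 1) => Real.exp (-(t * ‖x‖ ^ 2)) * u x :=
      int_of_bound (hg.mul hu.continuous) (R := R) fun x hx => by rw [hR x hx, mul_zero]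
    have i2 : Integrable fun x : V (N + 1) => Real.exp (-(t * ‖x‖ ^ 2)) * avg u x :=
      int_of_bound (hg.mul hac.continuous) (R := R) fun x hx => by
        rw [avg_supp hR x hx, mul_zero]
    simp only [mul_sub]
    rw [integral_sub i1 i2, h1, sub_self])
  have e1 : - -α - 1 = α - 1 := by ring
  have e2 : - -α = α := by ring
  rw [e1, e2] at hnr
  unfold mass energy
  rw [hm, he]
  have hnn : 0 ≤ ∫ x : V (N + 1), (1 + ‖x‖ ^ 2) ^ (α - 1) * (u x - avg u x) ^ 2 :=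
    integral_nonneg fun x => mul_nonneg (wt_pos _ x).le (sq_nonneg _)
  have h3 := mul_le_mul_of_nonneg_right hΛ2 hnn
  have h4 : -2 * α = 2 * -α := by ring
  rw [h4] at h3
  linarith

end Pool.Agent.U588.WH
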