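import Pool.Agent.U588.WH.Ext

set_option autoImplicit false

open MeasureTheory Set Filter Topology
open scoped ContDiff

namespace Pool.Agent.U588.WH

variable {n : ℕ}

/-- `c` is a valid constant for all test functions -/
def ValidFree (n : ℕ) (α c : ℝ) : Prop :=
  ∀ u : V n → ℝ, ContDiff ℝ ∞ u → HasCompactSupport u → c * mass α u ≤ energy α u

/-- `c` is a valid constant for all test functions of weighted mean zero -/
def ValidMean (n : ℕ) (α c : ℝ) : Prop :=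
  ∀ u : V n → ℝ, ContDiff ℝ ∞ u → HasCompactSupport u →
    ∫ x, (1 + ‖x‖ ^ 2) ^ (α - 1) * u x = 0 → c * mass α u ≤ energy α u

theorem ext_free {α c : ℝ} (hc : ValidFree n α c) {ψ : V n → ℝ} (hψ : ContDiff ℝ ∞ ψ)
    (hm : Integrable fun x : V n => (1 + ‖x‖ ^ 2) ^ (α - 1) * (ψ x) ^ 2)
    (he : Integrable fun x : V n => (1 + ‖x‖ ^ 2) ^ α * ‖fderiv ℝ ψ x‖ ^ 2) :
    c * mass α ψ ≤ energy α ψ := by
  have hd : Integrable fun x : V n => (1 + ‖x‖ ^ 2) ^ (α - 1) * (|ψ x| + 0) ^ 2 := by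
    simpa only [add_zero, sq_abs] using hm
  obtain ⟨h1, h2⟩ := tst_lim hψ α (fun _ => 0) 0 (by simp) tendsto_const_nhds hd he
  exact le_of_tendsto_of_tendsto' (h1.const_mul c) h2 fun k =>
    hc _ (tst_contDiff hψ _ k) (tst_compact ψ _ k)

theorem ext_mean {α c : ℝ} (hα : 2 * (α - 1) < -(n : ℝ)) (hc : ValidMean n α c)
    {ψ : V n → ℝ} (hψ : ContDiff ℝ ∞ ψ)
    (hm : Integrable fun x : V n => (1 + ‖x‖ ^ 2) ^ (α - 1) * (ψ x) ^ 2)
    (he : Integrable fun x : V n => (1 + ‖x‖ ^ 2) ^ α * ‖fderiv ℝ ψ x‖ ^ 2)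
    (h0 : ∫ x : V n, (1 + ‖x‖ ^ 2) ^ (α - 1) * ψ x = 0) :
    c * mass α ψ ≤ energy α ψ := by
  have hw := integrable_wt hα
  have hcut : ∀ k, Integrable fun x : V n => (1 + ‖x‖ ^ 2) ^ (α - 1) * cut n k x := fun k =>
    ((continuous_wt _).mul (cut_contDiff k).continuous).integrable_of_hasCompactSupport
      (cut_compact k).mul_left
  have hpc : ∀ k, Integrable fun x : V n => (1 + ‖x‖ ^ 2) ^ (α - 1) * (ψ x * cut n k x) := fun k =>
    ((continuous_wt _).mul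
      (hψ.continuous.mul (cut_contDiff k).continuous)).integrable_of_hasCompactSupport
      ((cut_compact k).mul_left).mul_left
  set A : ℕ → ℝ := fun k => ∫ x : V n, (1 + ‖x‖ ^ 2) ^ (α - 1) * (ψ x * cut n k x) with hA
  set B : ℕ → ℝ := fun k => ∫ x : V n, (1 + ‖x‖ ^ 2) ^ (α - 1) * cut n k x with hB
  have hBl : Tendsto B atTop (𝓝 (J n (α - 1))) := by
    refine tendsto_integral_of_dominated_convergence _ (fun k => (hcut k).1) hw (fun k => ?_) ?_
    · refine Eventually.of_forall fun x => ?_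
      rw [Real.norm_eq_abs, abs_mul, abs_of_pos (wt_pos _ _), abs_of_nonneg (cut_nonneg k x)]
      exact (mul_le_mul_of_nonneg_left (cut_le_one k x) (wt_pos _ _).le).trans (by rw [mul_one])
    · refine Eventually.of_forall fun x => tendsto_const_nhds.congr' ?_
      filter_upwards [cut_ev x] with k hk
      rw [hk.eq_of_nhds, mul_one]
  have hAl : Tendsto A atTop (𝓝 0) := by
    rw [← h0]
    refine tendsto_integral_of_dominated_convergence
      (fun x : V n => (1 + ‖x‖ ^ 2) ^ (α - 1) + (1 + ‖x‖ ^ 2) ^ (α - 1) * (ψ x) ^ 2)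
      (fun k => (hpc k).1) (hw.add hm) (fun k => ?_) ?_
    · refine Eventually.of_forall fun x => ?_
      rw [Real.norm_eq_abs, abs_mul, abs_of_pos (wt_pos _ _), abs_mul,
        abs_of_nonneg (cut_nonneg k x)]
      have h1 : |ψ x| * cut n k x ≤ 1 + (ψ x) ^ 2 := by
        have h2 : |ψ x| * cut n k x ≤ |ψ x| * 1 :=
          mul_le_mul_of_nonneg_left (cut_le_one k x) (abs_nonneg _)
        have h3 : (ψ x) ^ 2 = |ψ x| ^ 2 := (sq_abs _).symm
        rw [h3]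
        nlinarith [sq_nonneg (|ψ x| - 1), abs_nonneg (ψ x)]
      have := mul_le_mul_of_nonneg_left h1 (wt_pos (α - 1) x).le
      linarith
    · refine Eventually.of_forall fun x => tendsto_const_nhds.congr' ?_
      filter_upwards [cut_ev x] with k hk
      rw [hk.eq_of_nhds, mul_one]
  have hBpos : ∀ k, 0 < B k := by
    intro k
    refine Continuous.integral_pos_of_hasCompactSupport_nonneg_nonzero (x := 0)
      ((continuous_wt _).mul (cut_contDiff k).continuous) (cut_compact k).mul_left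
      (fun x => mul_nonneg (wt_pos _ _).le (cut_nonneg k x)) ?_
    have h1 : cut n k 0 = 1 := by
      unfold cut
      refine (bump n).one_of_mem_closedBall ?_
      simp [(bump n).rIn_pos.le]
    rw [h1]
    simp
  set cc : ℕ → ℝ := fun k => A k / B k with hcc
  have hccl : Tendsto cc atTop (𝓝 0) := by
    have := hAl.div hBl (J_pos hα).ne'
    rw [zero_div] at this
    exact this
  obtain ⟨C, hC⟩ : ∃ C : ℝ, ∀ k, |cc k| ≤ C := by
    obtain ⟨C, hC⟩ := (Metric.isBounded_range_of_tendsto cc hccl).exists_norm_le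
    exact ⟨C, fun k => hC _ (mem_range_self k)⟩
  have hC0 : 0 ≤ C := (abs_nonneg _).trans (hC 0)
  have hd : Integrable fun x : V n => (1 + ‖x‖ ^ 2) ^ (α - 1) * (|ψ x| + C) ^ 2 := by
    have hdom : Integrable fun x : V n => 2 * ((1 + ‖x‖ ^ 2) ^ (α - 1) * (ψ x) ^ 2)
        + 2 * C ^ 2 * (1 + ‖x‖ ^ 2) ^ (α - 1) := (hm.const_mul 2).add (hw.const_mul _)
    refine hdom.mono' ?_ (Eventually.of_forall fun x => ?_)
    · exact ((continuous_wt _).mul
        ((hψ.continuous.abs.add continuous_const).pow 2)).aestronglyMeasurable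
    · rw [Real.norm_eq_abs, abs_mul, abs_of_pos (wt_pos _ _), abs_of_nonneg (sq_nonneg _)]
      have h1 : (|ψ x| + C) ^ 2 ≤ 2 * (ψ x) ^ 2 + 2 * C ^ 2 := by
        rw [← sq_abs (ψ x)]
        nlinarith [sq_nonneg (|ψ x| - C)]
      have := mul_le_mul_of_nonneg_left h1 (wt_pos (α - 1) x).le
      linarith
  obtain ⟨h1, h2⟩ := tst_lim hψ α cc C hC hccl hd he
  refine le_of_tendsto_of_tendsto' (h1.const_mul c) h2 fun k =>
    hc _ (tst_contDiff hψ _ k) (tst_compact ψ _ k) ?_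
  have e : ∀ x : V n, (1 + ‖x‖ ^ 2) ^ (α - 1) * tst ψ cc k x
      = (1 + ‖x‖ ^ 2) ^ (α - 1) * (ψ x * cut n k x)
        - cc k * ((1 + ‖x‖ ^ 2) ^ (α - 1) * cut n k x) := by
    intro x
    unfold tst
    ring
  simp only [e]
  rw [integral_sub (hpc k) ((hcut k).const_mul _), integral_const_mul]
  have hb := (hBpos k).ne'
  show A k - A k / B k * B k = 0
  field_simp
  ring

/-! ### explicit functions -/

theorem fderiv_pw (σ m : ℝ) (x : V n) :
    ‖fderiv ℝ (fun x : V n => (1 + ‖x‖ ^ 2) ^ σ - m) x‖ ^ 2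
      = 4 * σ ^ 2 * (‖x‖ ^ 2 * ((1 + ‖x‖ ^ 2) ^ (σ - 1)) ^ 2) := by
  rw [((hasFDerivAt_wt σ x).sub_const m).fderiv, norm_smul, norm_smul, innerSL_apply_norm,
    norm_mul, mul_pow, mul_pow, mul_pow]
  simp only [Real.norm_eq_abs, sq_abs]
  ring

theorem wt_sq (s : ℝ) (x : V n) : ((1 + ‖x‖ ^ 2) ^ s) ^ 2 = (1 + ‖x‖ ^ 2) ^ (2 * s) := by
  rw [mul_comm 2 s, Real.rpow_mul (one_add_pos x).le, Real.rpow_two]

theorem pw_energy_pt (α σ m : ℝ) (x : V n) :
    (1 + ‖x‖ ^ 2) ^ α * ‖fderiv ℝ (fun x : V n => (1 + ‖x‖ ^ 2) ^ σ - m) x‖ ^ 2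
      = 4 * σ ^ 2 * (‖x‖ ^ 2 * (1 + ‖x‖ ^ 2) ^ (α - 1 + 2 * σ - 1)) := by
  rw [fderiv_pw]
  have e : (1 + ‖x‖ ^ 2) ^ (α - 1 + 2 * σ - 1)
      = (1 + ‖x‖ ^ 2) ^ α * ((1 + ‖x‖ ^ 2) ^ (σ - 1)) ^ 2 := by
    rw [wt_sq, ← Real.rpow_add (one_add_pos x)]
    congr 1
    ring
  rw [e]
  ring

theorem pw_energy_int {α σ : ℝ} (m : ℝ) (hs : 2 * (α - 1 + 2 * σ) < -(n : ℝ)) :
    Integrable fun x : V n => (1 + ‖x‖ ^ 2) ^ α *
      ‖fderiv ℝ (fun x : V n => (1 + ‖x‖ ^ 2) ^ σ - m) x‖ ^ 2 := by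
  simp only [pw_energy_pt]
  refine Integrable.const_mul ?_ _
  refine ((integrable_wt hs).sub (integrable_wt (s := α - 1 + 2 * σ - 1) (by linarith))).congr
    (Eventually.of_forall fun x => ?_)
  simp only [Pi.sub_apply]
  rw [wt_split (α - 1 + 2 * σ)]
  ring

theorem pw_energy {α σ : ℝ} (m : ℝ) (hs : 2 * (α - 1 + 2 * σ) < -(n : ℝ)) :
    energy α (fun x : V n => (1 + ‖x‖ ^ 2) ^ σ - m)
      = 4 * σ ^ 2 * (J n (α - 1 + 2 * σ) - J n (α - 1 + 2 * σ - 1)) := by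
  unfold energy
  simp only [pw_energy_pt]
  rw [integral_const_mul, integral_sq_wt hs]

theorem pw_contDiff (σ m : ℝ) : ContDiff ℝ ∞ (fun x : V n => (1 + ‖x‖ ^ 2) ^ σ - m) :=
  (contDiff_wt σ).sub contDiff_const

theorem wt_mul (s t : ℝ) (x : V n) :
    (1 + ‖x‖ ^ 2) ^ s * (1 + ‖x‖ ^ 2) ^ t = (1 + ‖x‖ ^ 2) ^ (s + t) :=
  (Real.rpow_add (one_add_pos x) s t).symm

/-- mass of the power function -/
theorem pw_mass_zero {α σ : ℝ} (hs : 2 * (α - 1 + 2 * σ) < -(n : ℝ)) :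
    (Integrable fun x : V n => (1 + ‖x‖ ^ 2) ^ (α - 1) * ((1 + ‖x‖ ^ 2) ^ σ - 0) ^ 2) ∧
    mass α (fun x : V n => (1 + ‖x‖ ^ 2) ^ σ - 0) = J n (α - 1 + 2 * σ) := by
  have e : ∀ x : V n, (1 + ‖x‖ ^ 2) ^ (α - 1) * ((1 + ‖x‖ ^ 2) ^ σ - 0) ^ 2
      = (1 + ‖x‖ ^ 2) ^ (α - 1 + 2 * σ) := by
    intro x
    rw [sub_zero, wt_sq, wt_mul]
  unfold mass J
  refine ⟨?_, ?_⟩
  · simp only [e]
    exact integrable_wt hs
  · simp only [e]

/-- mass of the centred power function -/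
theorem pw_mass {α σ : ℝ} (m : ℝ) (hα : 2 * (α - 1) < -(n : ℝ))
    (hs : 2 * (α - 1 + 2 * σ) < -(n : ℝ)) :
    (Integrable fun x : V n => (1 + ‖x‖ ^ 2) ^ (α - 1) * ((1 + ‖x‖ ^ 2) ^ σ - m) ^ 2) ∧
    mass α (fun x : V n => (1 + ‖x‖ ^ 2) ^ σ - m)
      = J n (α - 1 + 2 * σ) - 2 * m * J n (α - 1 + σ) + m ^ 2 * J n (α - 1) := by
  have h1 := integrable_wt hα
  have h2 := integrable_wt (s := α - 1 + σ) (n := n) (by linarith)
  have h3 := integrable_wt hs
  have e : ∀ x : V n, (1 + ‖x‖ ^ 2) ^ (α - 1) * ((1 + ‖x‖ ^ 2) ^ σ - m) ^ 2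
      = (1 + ‖x‖ ^ 2) ^ (α - 1 + 2 * σ) - 2 * m * (1 + ‖x‖ ^ 2) ^ (α - 1 + σ)
        + m ^ 2 * (1 + ‖x‖ ^ 2) ^ (α - 1) := by
    intro x
    have e1 : (1 + ‖x‖ ^ 2) ^ (α - 1 + 2 * σ)
        = (1 + ‖x‖ ^ 2) ^ (α - 1) * ((1 + ‖x‖ ^ 2) ^ σ) ^ 2 := by
      rw [wt_sq, wt_mul]
    rw [e1, ← wt_mul]
    ring
  have h4 : Integrable fun x : V n => (1 + ‖x‖ ^ 2) ^ (α - 1 + 2 * σ)
      - 2 * m * (1 + ‖x‖ ^ 2) ^ (α - 1 + σ) := h3.sub (h2.const_mul _)
  unfold mass J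
  simp only [e]
  refine ⟨h4.add (h1.const_mul _), ?_⟩
  rw [integral_add h4 (h1.const_mul _), integral_sub h3 (h2.const_mul _), integral_const_mul,
    integral_const_mul]

theorem pw_mean {α σ : ℝ} (m : ℝ) (hα : 2 * (α - 1) < -(n : ℝ))
    (hs : 2 * (α - 1 + 2 * σ) < -(n : ℝ)) :
    ∫ x : V n, (1 + ‖x‖ ^ 2) ^ (α - 1) * ((1 + ‖x‖ ^ 2) ^ σ - m)
      = J n (α - 1 + σ) - m * J n (α - 1) := by
  have h1 := integrable_wt hα
  have h2 := integrable_wt (s := α - 1 + σ) (n := n) (by linarith)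
  have e : ∀ x : V n, (1 + ‖x‖ ^ 2) ^ (α - 1) * ((1 + ‖x‖ ^ 2) ^ σ - m)
      = (1 + ‖x‖ ^ 2) ^ (α - 1 + σ) - m * (1 + ‖x‖ ^ 2) ^ (α - 1) := by
    intro x
    rw [← wt_mul]
    ring
  unfold J
  simp only [e]
  rw [integral_sub h2 (h1.const_mul _), integral_const_mul]

/-! ### upper bounds without constraint -/

theorem free_threshold {α c : ℝ} (h : -((n : ℝ) - 2) / 2 < α) (hc : ValidFree n α c) :
    c ≤ ((n : ℝ) + 2 * α - 2) ^ 2 / 4 := by
  set β := ((n : ℝ) + 2 * α - 2) / 4 with hβ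
  have hβ0 : 0 < β := by rw [hβ]; linarith
  have key : ∀ δ : ℝ, 0 < δ → c ≤ 4 * (β + δ) ^ 2 := by
    intro δ hδ
    have hs : 2 * (α - 1 + 2 * (-(β + δ))) < -(n : ℝ) := by rw [hβ]; linarith
    obtain ⟨h1, h2⟩ := pw_mass_zero hs
    have h3 := ext_free hc (pw_contDiff (-(β + δ)) 0) h1 (pw_energy_int 0 hs)
    rw [h2, pw_energy 0 hs] at h3
    have h4 := J_pos hs
    have h5 : 0 < J n (α - 1 + 2 * (-(β + δ)) - 1) := J_pos (by linarith)
    have h6 : c * J n (α - 1 + 2 * (-(β + δ))) ≤ 4 * (β + δ) ^ 2 * J n (α - 1 + 2 * (-(β + δ))) := by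
      nlinarith [sq_nonneg (β + δ)]
    exact le_of_mul_le_mul_right h6 h4
  have hlim : Tendsto (fun δ : ℝ => 4 * (β + δ) ^ 2) (𝓝[>] 0) (𝓝 (4 * (β + 0) ^ 2)) := by
    refine tendsto_nhdsWithin_of_tendsto_nhds ?_
    have : Continuous (fun δ : ℝ => 4 * (β + δ) ^ 2) := by fun_prop
    exact this.tendsto 0
  have h7 := ge_of_tendsto hlim (by
    filter_upwards [self_mem_nhdsWithin] with δ hδ
    exact key δ hδ)
  rw [add_zero, hβ] at h7
  linarith

theorem free_eigen (hn : 1 ≤ n) {α c : ℝ} (h : (n : ℝ) / 2 + 1 < α) (hc : ValidFree n α c) :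
    c ≤ 2 * n * (α - 1) := by
  have hn0 : (0:ℝ) < n := by exact_mod_cast hn
  have hs : 2 * (α - 1 + 2 * (1 - α)) < -(n : ℝ) := by linarith
  obtain ⟨h1, h2⟩ := pw_mass_zero hs
  have h3 := ext_free hc (pw_contDiff (1 - α) 0) h1 (pw_energy_int 0 hs)
  rw [h2, pw_energy 0 hs] at h3
  have h4 := J_pos hs
  have h5 := J_rec hn hs
  set j := J n (α - 1 + 2 * (1 - α)) with hj
  set j' := J n (α - 1 + 2 * (1 - α) - 1) with hj'
  have h6 : c * j ≤ (2 * n * (α - 1)) * j := by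
    have e : (n + 2 * (α - 1 + 2 * (1 - α))) * j = 2 * (α - 1 + 2 * (1 - α)) * j' := h5
    have e2 : 4 * (1 - α) ^ 2 * (j - j') = (2 * n * (α - 1)) * j := by
      have e3 : (1 - α) * ((n + 2 * (1 - α)) * j) = (1 - α) * (2 * (1 - α) * j') := by
        have : (n + 2 * (1 - α)) * j = 2 * (1 - α) * j' := by linarith
        rw [this]
      nlinarith
    rw [← e2]
    exact h3
  exact le_of_mul_le_mul_right h6 h4

/-! ### upper bounds with constraint -/

theorem mean_free (α c m : ℝ) {σ : ℝ} (hα : 2 * (α - 1) < -(n : ℝ))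
    (hs : 2 * (α - 1 + 2 * σ) < -(n : ℝ)) (hm : m = J n (α - 1 + σ) / J n (α - 1))
    (hc : ValidMean n α c) :
    c * (J n (α - 1 + 2 * σ) - m ^ 2 * J n (α - 1))
      ≤ 4 * σ ^ 2 * (J n (α - 1 + 2 * σ) - J n (α - 1 + 2 * σ - 1)) := by
  have hJ := J_pos hα
  have hmj : m * J n (α - 1) = J n (α - 1 + σ) := by
    rw [hm]
    field_simp
  obtain ⟨h1, h2⟩ := pw_mass m hα hs
  have h3 := ext_mean hα hc (pw_contDiff σ m) h1 (pw_energy_int m hs) (by
    rw [pw_mean m hα hs, hmj, sub_self])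
  rw [h2, pw_energy m hs, ← hmj] at h3
  have e : J n (α - 1 + 2 * σ) - 2 * m * (m * J n (α - 1)) + m ^ 2 * J n (α - 1)
      = J n (α - 1 + 2 * σ) - m ^ 2 * J n (α - 1) := by ring
  rw [e] at h3
  exact h3

theorem J_mono {s t : ℝ} (h : s ≤ t) (ht : 2 * t < -(n : ℝ)) : J n s ≤ J n t :=
  integral_mono (integrable_wt (by linarith)) (integrable_wt ht) fun x => wt_le_wt h x

theorem mean_threshold (hn : 1 ≤ n) {α c : ℝ} (h : α < -((n : ℝ) - 2) / 2)
    (hc : ValidMean n α c) : c ≤ ((n : ℝ) + 2 * α - 2) ^ 2 / 4 := by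
  have hn0 : (0:ℝ) < n := by exact_mod_cast hn
  have hα : 2 * (α - 1) < -(n : ℝ) := by linarith
  set k := -((n : ℝ) + 2 * α - 2) / 2 with hk
  have hk0 : 0 < k := by rw [hk]; linarith
  by_contra hcon
  push Not at hcon
  have hck : k ^ 2 < c := by
    have : k ^ 2 = ((n : ℝ) + 2 * α - 2) ^ 2 / 4 := by rw [hk]; ring
    rw [this]
    exact hcon
  -- bound for the means
  have hJ := J_pos hα
  have hB2 : 2 * (α - 1 + k / 2) < -(n : ℝ) := by rw [hk]; linarith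
  set B := (J n (α - 1 + k / 2) / J n (α - 1)) ^ 2 * J n (α - 1) with hB
  have hB0 : 0 ≤ B := by positivity
  have hJ0 : 0 < J n (-(n : ℝ) / 2 - 2) := J_pos (by linarith)
  set J0 := J n (-(n : ℝ) / 2 - 2) with hJ0d
  have key : ∀ δ : ℝ, 0 < δ → δ ≤ 1 → δ ≤ k → (c - k ^ 2) * (n / (2 * δ) * J0) ≤ c * B := by
    intro δ hδ hδ1 hδk
    set s := -(n : ℝ) / 2 - δ with hs
    have hs2 : α - 1 + 2 * (k / 2 - δ / 2) = s := by rw [hs, hk]; ring
    have hs3 : 2 * s < -(n : ℝ) := by rw [hs]; linarith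
    have h1 := mean_free α c _ (σ := k / 2 - δ / 2) hα (by rw [hs2]; exact hs3) rfl hc
    rw [hs2] at h1
    set m := J n (α - 1 + (k / 2 - δ / 2)) / J n (α - 1) with hm
    have hm0 : 0 ≤ m := div_nonneg (J_pos (by linarith)).le hJ.le
    have hmB : m ^ 2 * J n (α - 1) ≤ B := by
      rw [hB]
      refine mul_le_mul_of_nonneg_right ?_ hJ.le
      refine pow_le_pow_left₀ hm0 ?_ 2
      exact div_le_div_of_nonneg_right (J_mono (by linarith) hB2) hJ.le
    have h2 : 0 < J n (s - 1) := J_pos (by linarith)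
    have h3 : 4 * (k / 2 - δ / 2) ^ 2 ≤ k ^ 2 := by nlinarith
    have hJs := J_pos hs3
    have h4 : c * (J n s - m ^ 2 * J n (α - 1)) ≤ k ^ 2 * J n s := by
      refine h1.trans ?_
      have : 0 ≤ 4 * (k / 2 - δ / 2) ^ 2 := by positivity
      nlinarith
    have hc0 : 0 < c := lt_of_le_of_lt (sq_nonneg k) hck
    have h5 : (c - k ^ 2) * J n s ≤ c * B := by nlinarith
    have h6 : n / (2 * δ) * J0 ≤ J n s := by
      have h7 := J_rec hn hs3
      have h8 : J0 ≤ J n (s - 1) := J_mono (by rw [hs]; linarith) (by linarith)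
      have h9 : (n : ℝ) + 2 * s = -(2 * δ) := by rw [hs]; ring
      rw [h9] at h7
      have h10 : (n : ℝ) * J0 ≤ 2 * δ * J n s := by
        have : -(2 * s) * J n (s - 1) = 2 * δ * J n s := by linarith
        rw [← this]
        have h11 : (n : ℝ) ≤ -(2 * s) := by rw [hs]; linarith
        exact mul_le_mul h11 h8 hJ0.le (by linarith)
      rw [div_mul_eq_mul_div, div_le_iff₀ (by positivity)]
      linarith
    exact (mul_le_mul_of_nonneg_left h6 (by linarith)).trans h5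
  -- contradiction for small δ
  have hgap : 0 < c - k ^ 2 := by linarith
  set D := (c - k ^ 2) * (n / 2 * J0) with hD
  have hD0 : 0 < D := by positivity
  have hc0 : 0 < c := lt_of_le_of_lt (sq_nonneg k) hck
  set δ := min (min 1 k) (D / (c * B + 1) / 2) with hδ
  have hcb : 0 < c * B + 1 := by positivity
  have hδ0 : 0 < δ := by
    rw [hδ]
    refine lt_min (lt_min one_pos hk0) (by positivity)
  have h1 := key δ hδ0 ((min_le_left _ _).trans (min_le_left _ _))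
    ((min_le_left _ _).trans (min_le_right _ _))
  have h2 : (c - k ^ 2) * (n / (2 * δ) * J0) = D / δ := by
    rw [hD]
    field_simp
  rw [h2, div_le_iff₀ hδ0] at h1
  have h3 : δ ≤ D / (c * B + 1) / 2 := min_le_right _ _
  have h4 : c * B * δ ≤ (c * B + 1) * (D / (c * B + 1) / 2) := by
    refine mul_le_mul (by linarith) h3 hδ0.le hcb.le
  have h5 : (c * B + 1) * (D / (c * B + 1) / 2) = D / 2 := by field_simp
  linarith

theorem mean_quad (hn : 1 ≤ n) {α c : ℝ} (h : α < -((n : ℝ) + 2) / 2)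
    (hc : ValidMean n α c) : c ≤ -4 * α - 2 * n := by
  have hn0 : (0:ℝ) < n := by exact_mod_cast hn
  have hα : 2 * (α - 1) < -(n : ℝ) := by linarith
  have hs : 2 * (α - 1 + 2 * 1) < -(n : ℝ) := by linarith
  have h1 := mean_free α c _ (σ := 1) hα hs rfl hc
  have e1 : α - 1 + 2 * 1 = α + 1 := by ring
  have e2 : α - 1 + 2 * 1 - 1 = α := by ring
  have e3 : α - 1 + 1 = α := by ring
  rw [e1, e3] at h1
  have e4 : α + 1 - 1 = α := by ring
  rw [e4] at h1
  have hr1 := J_rec hn (s := α + 1) (by linarith)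
  have hr2 := J_rec hn (s := α) (by linarith)
  rw [e4] at hr1
  have hJ := J_pos hα
  have hJ1 : 0 < J n (α + 1) := J_pos (by linarith)
  set a := J n (α + 1) with ha
  set b := J n α with hb
  set d := J n (α - 1) with hd
  -- `b = (n + 2α + 2)/(2α+2) a`, `d = (n+2α)/(2α) b`
  have hα0 : α < -1 := by linarith
  have hbq : b = (n + 2 * (α + 1)) / (2 * (α + 1)) * a := by
    have : (2 * (α + 1)) ≠ 0 := by
      have : 2 * (α + 1) < 0 := by linarith
      exact this.ne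
    rw [div_mul_eq_mul_div, eq_div_iff this]
    linarith
  have hdq : d = (n + 2 * α) / (2 * α) * b := by
    have : (2 * α) ≠ 0 := by
      have : 2 * α < 0 := by linarith
      exact this.ne
    rw [div_mul_eq_mul_div, eq_div_iff this]
    linarith
  have hq1 : α + 1 < 0 := by linarith
  have hq2 : (n : ℝ) + 2 * α < 0 := by linarith
  have hq3 : (n : ℝ) + 2 * (α + 1) < 0 := by linarith
  have hb0 : 0 < b := J_pos (by linarith)
  have hlhs : a - (b / d) ^ 2 * d = a * (2 * n / ((2 * (α + 1)) * (n + 2 * α))) := by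
    rw [hdq, hbq]
    have n1 : α ≠ 0 := by linarith
    have n2 : α + 1 ≠ 0 := hq1.ne
    have n3 : (n : ℝ) + 2 * α ≠ 0 := hq2.ne
    have n4 : (n : ℝ) + 2 * (α + 1) ≠ 0 := hq3.ne
    have n5 : a ≠ 0 := hJ1.ne'
    field_simp
    ring
  have hrhs : 4 * 1 ^ 2 * (a - b) = a * (-4 * n / (2 * (α + 1))) := by
    rw [hbq]
    have n2 : α + 1 ≠ 0 := hq1.ne
    field_simp
    ring
  rw [hlhs, hrhs] at h1
  have hpos : 0 < a * (2 * n / ((2 * (α + 1)) * (n + 2 * α))) := by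
    have : 0 < (2 * (α + 1)) * (n + 2 * α) := by nlinarith
    positivity
  have hrw : a * (-4 * n / (2 * (α + 1)))
      = (-4 * α - 2 * n) * (a * (2 * n / ((2 * (α + 1)) * (n + 2 * α)))) := by
    have n2 : α + 1 ≠ 0 := hq1.ne
    have n3 : (n : ℝ) + 2 * α ≠ 0 := hq2.ne
    field_simp
    ring
  rw [hrw] at h1
  exact le_of_mul_le_mul_right h1 hpos

theorem mean_coord (hn : 1 ≤ n) {α c : ℝ} (h : 2 * α < -(n : ℝ))
    (hc : ValidMean n α c) : c ≤ -2 * α := by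
  have hn0 : (0:ℝ) < n := by exact_mod_cast hn
  have hα : 2 * (α - 1) < -(n : ℝ) := by linarith
  have hwα := integrable_wt h
  have hx : ∀ (i : Fin n) (x : V n), (x i) ^ 2 ≤ ‖x‖ ^ 2 := by
    intro i x
    rw [EuclideanSpace.real_norm_sq_eq]
    exact Finset.single_le_sum (f := fun i => (x i) ^ 2) (fun j _ => sq_nonneg _)
      (Finset.mem_univ i)
  have hm : ∀ i : Fin n, Integrable fun x : V n => (1 + ‖x‖ ^ 2) ^ (α - 1) * (x i) ^ 2 := by
    intro i
    refine hwα.mono' ?_ (Eventually.of_forall fun x => ?_)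
    · exact ((continuous_wt _).mul
        ((EuclideanSpace.proj (𝕜 := ℝ) i : V n →L[ℝ] ℝ).continuous.pow 2)).aestronglyMeasurable
    · rw [Real.norm_eq_abs, abs_mul, abs_of_pos (wt_pos _ _), abs_of_nonneg (sq_nonneg _),
        wt_split α]
      have := hx i x
      have := wt_pos (α - 1) x
      nlinarith
  have hfd : ∀ (i : Fin n) (x : V n),
      fderiv ℝ (fun x : V n => x i) x = (EuclideanSpace.proj (𝕜 := ℝ) i : V n →L[ℝ] ℝ) := by
    intro i x
    exact (EuclideanSpace.proj (𝕜 := ℝ) i : V n →L[ℝ] ℝ).hasFDerivAt.fderiv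
  have hnorm : ∀ i : Fin n, ‖(EuclideanSpace.proj (𝕜 := ℝ) i : V n →L[ℝ] ℝ)‖ ≤ 1 := by
    intro i
    refine ContinuousLinearMap.opNorm_le_bound _ zero_le_one fun x => ?_
    rw [one_mul]
    show ‖x i‖ ≤ ‖x‖
    rw [Real.norm_eq_abs]
    exact abs_le_of_sq_le_sq (hx i x) (norm_nonneg _)
  have key : ∀ i : Fin n, c * (∫ x : V n, (1 + ‖x‖ ^ 2) ^ (α - 1) * (x i) ^ 2) ≤ J n α := by
    intro i
    have he : Integrable fun x : V n => (1 + ‖x‖ ^ 2) ^ α * ‖fderiv ℝ (fun x : V n => x i) x‖ ^ 2 := by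
      simp only [hfd]
      exact hwα.mul_const _
    have h0 : ∫ x : V n, (1 + ‖x‖ ^ 2) ^ (α - 1) * x i = 0 := by
      have h1 := integral_neg_eq_self (fun x : V n => (1 + ‖x‖ ^ 2) ^ (α - 1) * x i) volume
      have h2 : ∀ x : V n, (1 + ‖-x‖ ^ 2) ^ (α - 1) * (-x) i
          = - ((1 + ‖x‖ ^ 2) ^ (α - 1) * x i) := by
        intro x
        rw [norm_neg]
        simp
      simp only [h2] at h1
      rw [integral_neg] at h1
      linarith
    have h3 := ext_mean hα hc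
      (ψ := fun x : V n => x i) (EuclideanSpace.proj (𝕜 := ℝ) i : V n →L[ℝ] ℝ).contDiff (hm i) he h0
    refine h3.trans ?_
    unfold energy J
    refine integral_mono he hwα fun x => ?_
    simp only [hfd]
    have h4 : ‖(EuclideanSpace.proj (𝕜 := ℝ) i : V n →L[ℝ] ℝ)‖ ^ 2 ≤ 1 :=
      pow_le_one₀ (norm_nonneg _) (hnorm i)
    have := wt_pos α x
    nlinarith
  have hsum := Finset.sum_le_sum fun i (_ : i ∈ Finset.univ) => key i
  rw [← Finset.mul_sum, ← integral_finsetSum _ (fun i _ => hm i), Finset.sum_const,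
    Finset.card_univ, Fintype.card_fin, nsmul_eq_mul] at hsum
  have e1 : ∀ x : V n, ∑ i, (1 + ‖x‖ ^ 2) ^ (α - 1) * (x i) ^ 2
      = ‖x‖ ^ 2 * (1 + ‖x‖ ^ 2) ^ (α - 1) := by
    intro x
    rw [← Finset.mul_sum, ← EuclideanSpace.real_norm_sq_eq, mul_comm]
  simp only [e1] at hsum
  rw [integral_sq_wt h] at hsum
  have hr := J_rec hn h
  have hJ := J_pos h
  have hα0 : α < 0 := by linarith
  have hd : J n (α - 1) = (n + 2 * α) / (2 * α) * J n α := by
    have : (2 * α) ≠ 0 := by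
      have : 2 * α < 0 := by linarith
      exact this.ne
    rw [div_mul_eq_mul_div, eq_div_iff this]
    linarith
  rw [hd] at hsum
  have e2 : J n α - (n + 2 * α) / (2 * α) * J n α = (-(n:ℝ) / (2 * α)) * J n α := by
    have : α ≠ 0 := hα0.ne
    field_simp
    ring
  rw [e2] at hsum
  have hpos : 0 < (-(n:ℝ) / (2 * α)) * J n α := by
    have : 0 < -(n:ℝ) / (2 * α) := div_pos_of_neg_of_neg (by linarith) (by linarith)
    positivity
  have e3 : (n : ℝ) * J n α = (-2 * α) * ((-(n:ℝ) / (2 * α)) * J n α) := by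
    have : α ≠ 0 := hα0.ne
    field_simp
  rw [e3] at hsum
  exact le_of_mul_le_mul_right hsum hpos

end Pool.Agent.U588.WH
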